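import Mathlib

/-!
# Faces of finite convexly independent sets, edges and monotone paths
-/

set_option autoImplicit false

namespace Q139.Orn

variable {E : Type*} [AddCommGroup E] [Module ℝ E]

/-- `S` is the vertex set of a face of the polytope with vertex set `W`. -/
def Face (W S : Finset E) : Prop :=
  S ⊆ W ∧ ∃ f : E →ₗ[ℝ] ℝ, ∃ r : ℝ, (∀ w ∈ S, f w = r) ∧ ∀ w ∈ W, w ∉ S → r < f w

/-- the oriented edges -/
def Arrow [DecidableEq E] (W : Finset E) (c : E →ₗ[ℝ] ℝ) (u w : E) : Prop :=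
  u ≠ w ∧ Face W {u, w} ∧ c u < c w

lemma Face.subset {W S : Finset E} (h : Face W S) : S ⊆ W := h.1

lemma exists_bound {ι : Type*} (s : Finset ι) (g : ι → ℝ) : ∃ M : ℝ, 0 < M ∧ ∀ i ∈ s, g i < M := by
  classical
  refine ⟨∑ i ∈ s, |g i| + 1, by positivity, fun i hi => ?_⟩
  have h1 := Finset.single_le_sum (f := fun i => |g i|) (fun i _ => abs_nonneg (g i)) hi
  have h2 := le_abs_self (g i)
  linarith

/-- a face of a face is a face -/
lemma Face.sub [DecidableEq E] {W S S' : Finset E} (hS : Face W S) (hS' : S' ⊆ S)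
    (f : E →ₗ[ℝ] ℝ) (r : ℝ) (h0 : ∀ w ∈ S', f w = r) (h1 : ∀ w ∈ S, w ∉ S' → r < f w) :
    Face W S' := by
  classical
  obtain ⟨hSW, F, R, hF0, hF1⟩ := hS
  obtain ⟨M, hM0, hM⟩ := exists_bound (W.filter (fun w => w ∉ S)) (fun w => (r - f w) / (F w - R))
  refine ⟨hS'.trans hSW, M • F + f, M * R + r, ?_, ?_⟩
  · intro w hw
    simp [hF0 w (hS' hw), h0 w hw]
  · intro w hw hwS'
    simp only [LinearMap.add_apply, LinearMap.smul_apply, smul_eq_mul]
    by_cases hwS : w ∈ S
    · rw [hF0 w hwS]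
      linarith [h1 w hwS hwS']
    · have h2 := hF1 w hw hwS
      have h3 := hM w (Finset.mem_filter.2 ⟨hw, hwS⟩)
      rw [div_lt_iff₀ (by linarith)] at h3
      nlinarith

lemma exists_dual_ne {y : E} (hy : y ≠ 0) : ∃ l : E →ₗ[ℝ] ℝ, l y ≠ 0 := by
  by_contra h
  push Not at h
  exact hy ((Module.forall_dual_apply_eq_zero_iff ℝ y).1 h)

/-- three different vertices are not collinear -/
lemma not_collinear [DecidableEq E] {W : Finset E} (hexp : ∀ w ∈ W, Face W {w}) {v a b : E}
    (hv : v ∈ W) (ha : a ∈ W) (hb : b ∈ W) (hva : v ≠ a) (hvb : v ≠ b) (hab : a ≠ b)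
    {s t : ℝ} (hs : 0 < s) (ht : 0 < t) : s • (a - v) - t • (b - v) ≠ 0 := by
  intro h
  have key : ∀ g : E →ₗ[ℝ] ℝ, s * (g a - g v) = t * (g b - g v) := by
    intro g
    have := congrArg g h
    simp only [map_sub, map_smul, map_zero, smul_eq_mul] at this
    linarith
  obtain ⟨-, g, r, hg0, hg1⟩ := hexp a ha
  obtain ⟨-, g', r', hg0', hg1'⟩ := hexp b hb
  have e1 := key g
  have e2 := key g'
  have a1 := hg0 a (by simp)
  have a2 := hg1 v hv (by simpa using hva)
  have a3 := hg1 b hb (by simpa using hab.symm)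
  have b1 := hg0' b (by simp)
  have b2 := hg1' v hv (by simpa using hvb)
  have b3 := hg1' a ha (by simpa using hab)
  have h1 : t < s ∨ s ≤ t := lt_or_ge t s
  rcases h1 with h1 | h1
  · nlinarith
  · nlinarith

/-- improving edges -/
theorem exists_edge [DecidableEq E] {W : Finset E} (hexp : ∀ w ∈ W, Face W {w}) :
    ∀ n : ℕ, ∀ S : Finset E, S.card = n → Face W S → ∀ v ∈ S, ∀ f : E →ₗ[ℝ] ℝ,
      (∃ u ∈ S, f u < f v) → ∃ u ∈ S, f u < f v ∧ Face W {v, u} := by
  intro n
  induction n using Nat.strong_induction_on with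
  | _ n ih =>
  intro S hcard hS v hv f hu
  have hvW := hS.subset hv
  obtain ⟨-, k, rk, hk0, hk1⟩ := hexp v hvW
  have hkv : k v = rk := hk0 v (by simp)
  have hk : ∀ w ∈ S, w ≠ v → k v < k w := fun w hw hwv => by
    rw [hkv]; exact hk1 w (hS.subset hw) (by simpa using hwv)
  obtain ⟨u0, hu0, hfu0⟩ := hu
  have hu0v : u0 ≠ v := by rintro rfl; exact lt_irrefl _ hfu0
  -- generic step: maximal slope
  have step : ∀ l : E →ₗ[ℝ] ℝ, ∃ S' ⊆ S, Face W S' ∧ v ∈ S' ∧ (∃ u ∈ S', u ≠ v) ∧ ∃ M : ℝ,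
      (∀ w ∈ S', w ≠ v → l v - l w = M * (k w - k v)) ∧
      ∀ w ∈ S, w ≠ v → l v - l w ≤ M * (k w - k v) := by
    intro l
    obtain ⟨u, hu, humax⟩ := Finset.exists_max_image (S.erase v)
      (fun w => (l v - l w) / (k w - k v)) ⟨u0, Finset.mem_erase.2 ⟨hu0v, hu0⟩⟩
    set M := (l v - l u) / (k u - k v) with hM
    have hle : ∀ w ∈ S, w ≠ v → l v - l w ≤ M * (k w - k v) := by
      intro w hw hwv
      have h1 := humax w (Finset.mem_erase.2 ⟨hwv, hw⟩)
      rw [div_le_iff₀ (by linarith [hk w hw hwv])] at h1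
      exact h1
    have hmem := Finset.mem_erase.1 hu
    refine ⟨S.filter (fun w => M * (k w - k v) - (l v - l w) = 0), Finset.filter_subset _ _, ?_,
      ?_, ⟨u, ?_, hmem.1⟩, M, ?_, hle⟩
    · refine hS.sub (Finset.filter_subset _ _) (M • k + l) (M * k v + l v) ?_ ?_
      · intro w hw
        have := (Finset.mem_filter.1 hw).2
        simp only [LinearMap.add_apply, LinearMap.smul_apply, smul_eq_mul]
        linarith
      · intro w hw hw'
        have hne : w ≠ v := by
          rintro rfl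
          exact hw' (Finset.mem_filter.2 ⟨hw, by ring⟩)
        have h1 := hle w hw hne
        have h2 : M * (k w - k v) - (l v - l w) ≠ 0 := fun h => hw' (Finset.mem_filter.2 ⟨hw, h⟩)
        have h3 : 0 < M * (k w - k v) - (l v - l w) := lt_of_le_of_ne (by linarith) h2.symm
        simp only [LinearMap.add_apply, LinearMap.smul_apply, smul_eq_mul]
        linarith
    · exact Finset.mem_filter.2 ⟨hv, by ring⟩
    · refine Finset.mem_filter.2 ⟨hmem.2, ?_⟩
      have h1 : k u - k v ≠ 0 := by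
        have := hk u hmem.2 hmem.1
        intro h
        linarith
      rw [hM, div_mul_cancel₀ _ h1]
      ring
    · intro w hw _
      have := (Finset.mem_filter.1 hw).2
      linarith
  -- finishing with a face all of whose vertices are lower than `v`
  have fin : ∀ S' ⊆ S, Face W S' → v ∈ S' → (∃ u ∈ S', u ≠ v) → (∀ u ∈ S', u ≠ v → f u < f v) →
      S' ≠ S → ∃ u ∈ S, f u < f v ∧ Face W {v, u} := by
    intro S' hsub hF hvS' ⟨u, huS', huv⟩ hlow hne
    have hlt : S'.card < n := by
      rw [← hcard]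
      exact Finset.card_lt_card (Finset.ssubset_iff_subset_ne.2 ⟨hsub, hne⟩)
    obtain ⟨u', hu', h1, h2⟩ := ih _ hlt S' rfl hF v hvS' f ⟨u, huS', hlow u huS' huv⟩
    exact ⟨u', hsub hu', h1, h2⟩
  obtain ⟨S', hsub, hF, hvS', hex, M, hM1, hM2⟩ := step f
  have hMpos : 0 < M := by
    have h1 := hM2 u0 hu0 hu0v
    have h2 := hk u0 hu0 hu0v
    by_contra hneg
    push Not at hneg
    nlinarith
  have hlow : ∀ u ∈ S', u ≠ v → f u < f v := by
    intro u hu huv
    have h1 := hM1 u hu huv
    have h2 := hk u (hsub hu) huv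
    nlinarith
  by_cases hne : S' = S
  · -- all slopes are equal
    subst hne
    by_cases h2 : ∃ u1 ∈ S', ∃ u2 ∈ S', u1 ≠ v ∧ u2 ≠ v ∧ u1 ≠ u2
    · obtain ⟨u1, hu1, u2, hu2, h1v, h2v, h12⟩ := h2
      have k1 := hk u1 hu1 h1v
      have k2 := hk u2 hu2 h2v
      have hne := not_collinear hexp hvW (hS.subset hu1) (hS.subset hu2) h1v.symm h2v.symm h12
        (s := k u2 - k v) (t := k u1 - k v) (by linarith) (by linarith)
      obtain ⟨l, hl⟩ := exists_dual_ne hne
      obtain ⟨S'', hsub', hF', hvS'', hex', M', hM1', hM2'⟩ := step l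
      refine fin S'' hsub' hF' hvS'' hex' (fun u hu huv => hlow u (hsub' hu) huv) ?_
      rintro rfl
      apply hl
      have e1 := hM1' u1 hu1 h1v
      have e2 := hM1' u2 hu2 h2v
      simp only [map_sub, map_smul, smul_eq_mul]
      have e1' : l u1 - l v = - (M' * (k u1 - k v)) := by linarith
      have e2' : l u2 - l v = - (M' * (k u2 - k v)) := by linarith
      rw [e1', e2']
      ring
    · push Not at h2
      have hSeq : S' = {v, u0} := by
        ext w
        simp only [Finset.mem_insert, Finset.mem_singleton]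
        constructor
        · intro hw
          by_cases hwv : w = v
          · exact Or.inl hwv
          · right
            exact h2 w hw u0 hu0 hwv hu0v
        · rintro (rfl | rfl)
          · exact hv
          · exact hu0
      refine ⟨u0, hu0, hfu0, ?_⟩
      rw [← hSeq]
      exact hS
  · exact fin S' hsub hF hvS' hex hlow hne

end Q139.Orn
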