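import Mathlib
import Pool.Agent.Q139.Orn.Face

/-!
# Triangles, monotone paths, rotation about an edge
-/

set_option autoImplicit false

namespace Q139.Orn

open Relation

variable {E : Type*} [AddCommGroup E] [Module ℝ E]

/-- prescribing the values of a functional on a finite family -/
lemma exists_dual_values {ι : Type*} [Fintype ι] (y : ι → E) (φ : ι → ℝ)
    (h : ∀ l : ι → ℝ, ∑ i, l i • y i = 0 → ∑ i, l i * φ i = 0) :
    ∃ f : E →ₗ[ℝ] ℝ, ∀ i, f (y i) = φ i := by
  classical
  let Φ : (ι → ℝ) →ₗ[ℝ] E := Fintype.linearCombination ℝ y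
  let Ψ : (ι → ℝ) →ₗ[ℝ] ℝ := Fintype.linearCombination ℝ φ
  have hmem : Ψ ∈ (LinearMap.ker Φ).dualAnnihilator := by
    rw [Submodule.mem_dualAnnihilator]
    intro l hl
    rw [LinearMap.mem_ker, Fintype.linearCombination_apply] at hl
    rw [Fintype.linearCombination_apply]
    simpa using h l hl
  rw [← LinearMap.range_dualMap_eq_dualAnnihilator_ker] at hmem
  obtain ⟨f, hf⟩ := hmem
  refine ⟨f, fun i => ?_⟩
  have h1 := congrArg (fun g : (ι → ℝ) →ₗ[ℝ] ℝ => g (Pi.single i 1)) hf
  simp only [LinearMap.dualMap_apply', LinearMap.coe_comp, Function.comp_apply] at h1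
  have h2 : Φ (Pi.single i 1) = y i := by simp [Φ, Fintype.linearCombination_apply_single]
  have h3 : Ψ (Pi.single i 1) = φ i := by simp [Ψ, Fintype.linearCombination_apply_single]
  rw [h2, h3] at h1
  exact h1

/-- two edge vectors are linearly independent -/
lemma indep2 [DecidableEq E] {W : Finset E} (hexp : ∀ w ∈ W, Face W {w}) {v a b : E}
    (hv : v ∈ W) (ha : a ∈ W) (hb : b ∈ W) (hva : v ≠ a) (hvb : v ≠ b) (hab : a ≠ b)
    {s t : ℝ} (h : s • (a - v) + t • (b - v) = 0) : s = 0 ∧ t = 0 := by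
  obtain ⟨-, k, r, hk0, hk1⟩ := hexp v hv
  have h0 := hk0 v (by simp)
  have h1 := hk1 a ha (by simpa using hva.symm)
  have h2 := hk1 b hb (by simpa using hvb.symm)
  have e := congrArg k h
  simp only [map_add, map_smul, map_sub, map_zero, smul_eq_mul] at e
  rcases lt_trichotomy s 0 with hs | hs | hs
  · exfalso
    have ht : 0 < t := by
      by_contra hneg
      push Not at hneg
      nlinarith
    apply not_collinear hexp hv ha hb hva hvb hab (s := -s) (t := t) (by linarith) ht
    rw [neg_smul, ← neg_add', h, neg_zero]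
  · subst hs
    refine ⟨rfl, ?_⟩
    have : t * (k b - k v) = 0 := by linarith
    rcases mul_eq_zero.1 this with h | h
    · exact h
    · exfalso; linarith
  · exfalso
    have ht : t < 0 := by
      by_contra hneg
      push Not at hneg
      nlinarith
    apply not_collinear hexp hv ha hb hva hvb hab (s := s) (t := -t) hs (by linarith)
    rw [neg_smul, sub_neg_eq_add, h]

/-- the sides of a triangle -/
lemma tri [DecidableEq E] {W : Finset E} (hexp : ∀ w ∈ W, Face W {w}) {a b c : E}
    (hab : a ≠ b) (hac : a ≠ c) (hbc : b ≠ c) (hS : Face W {a, b, c}) : Face W {a, b} := by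
  have ha : a ∈ W := hS.subset (by simp)
  have hb : b ∈ W := hS.subset (by simp)
  have hc : c ∈ W := hS.subset (by simp)
  obtain ⟨f, hf⟩ := exists_dual_values ![b - a, c - a] ![0, 1] (by
    intro l hl
    simp only [Fin.sum_univ_two, Matrix.cons_val_zero, Matrix.cons_val_one] at hl ⊢
    have := indep2 hexp ha hb hc hab hac hbc hl
    simp [this.2])
  have f1 := hf 0
  have f2 := hf 1
  simp only [Matrix.cons_val_zero, Matrix.cons_val_one, map_sub] at f1 f2
  refine hS.sub (by intro w; simp only [Finset.mem_insert, Finset.mem_singleton]; tauto) f (f a) ?_ ?_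
  · intro w hw
    simp only [Finset.mem_insert, Finset.mem_singleton] at hw
    rcases hw with rfl | rfl
    · rfl
    · linarith
  · intro w hw hw'
    simp only [Finset.mem_insert, Finset.mem_singleton, not_or] at hw hw'
    rcases hw with rfl | rfl | rfl
    · exact absurd rfl hw'.1
    · exact absurd rfl hw'.2
    · linarith

/-- In a face whose highest vertices include `x`, every vertex lies below `x`. -/
lemma below_of_max [DecidableEq E] {W : Finset E} (hexp : ∀ w ∈ W, Face W {w})
    {c : E →ₗ[ℝ] ℝ} (hc : ∀ u w, u ≠ w → Face W {u, w} → c u ≠ c w) {S : Finset E}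
    (hS : Face W S) {x : E} (hx : x ∈ S) (hmax : ∀ w ∈ S, c w ≤ c x) :
    ∀ w ∈ S, ReflTransGen (Arrow W c) w x := by
  classical
  have strict : ∀ w ∈ S, w ≠ x → c w < c x := by
    intro w hw hwx
    refine lt_of_le_of_ne (hmax w hw) fun heq => ?_
    have hF : Face W (S.filter (fun u => c u = c x)) := by
      refine hS.sub (Finset.filter_subset _ _) (-c) (-(c x)) ?_ ?_
      · intro u hu
        simp [(Finset.mem_filter.1 hu).2]
      · intro u hu hu'
        have h1 := hmax u hu
        have h2 : c u ≠ c x := fun h => hu' (Finset.mem_filter.2 ⟨hu, h⟩)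
        have := lt_of_le_of_ne h1 h2
        simp only [LinearMap.neg_apply]
        linarith
    obtain ⟨l, hl⟩ := exists_dual_ne (sub_ne_zero.2 hwx)
    rw [map_sub] at hl
    have hxm : x ∈ S.filter (fun u => c u = c x) := Finset.mem_filter.2 ⟨hx, rfl⟩
    have hwm : w ∈ S.filter (fun u => c u = c x) := Finset.mem_filter.2 ⟨hw, heq⟩
    rcases lt_or_gt_of_ne hl with h | h
    · obtain ⟨u, hu, hlu, hedge⟩ := exists_edge hexp _ _ rfl hF x hxm l ⟨w, hwm, by linarith⟩
      refine hc x u ?_ hedge (Finset.mem_filter.1 hu).2.symm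
      rintro rfl
      exact lt_irrefl _ hlu
    · obtain ⟨u, hu, hlu, hedge⟩ := exists_edge hexp _ _ rfl hF x hxm (-l)
        ⟨w, hwm, by simp only [LinearMap.neg_apply]; linarith⟩
      refine hc x u ?_ hedge (Finset.mem_filter.1 hu).2.symm
      rintro rfl
      exact lt_irrefl _ hlu
  have main : ∀ n : ℕ, ∀ w ∈ S, (S.filter (fun u => c w < c u)).card = n →
      ReflTransGen (Arrow W c) w x := by
    intro n
    induction n using Nat.strong_induction_on with
    | _ n ih =>
    intro w hw hcard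
    by_cases hwx : w = x
    · rw [hwx]
    · have hlt := strict w hw hwx
      obtain ⟨u, hu, hcu, hedge⟩ := exists_edge hexp _ _ rfl hS w hw (-c)
        ⟨x, hx, by simp only [LinearMap.neg_apply]; linarith⟩
      simp only [LinearMap.neg_apply] at hcu
      have hcu' : c w < c u := by linarith
      have hlt' : (S.filter (fun y => c u < c y)).card < n := by
        rw [← hcard]
        apply Finset.card_lt_card
        rw [Finset.ssubset_iff_of_subset]
        · exact ⟨u, Finset.mem_filter.2 ⟨hu, hcu'⟩, by simp⟩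
        · intro y hy
          have := Finset.mem_filter.1 hy
          exact Finset.mem_filter.2 ⟨this.1, hcu'.trans this.2⟩
      refine ReflTransGen.head ⟨?_, hedge, hcu'⟩ (ih _ hlt' u hu rfl)
      rintro rfl
      exact lt_irrefl _ hcu'
  exact fun w hw => main _ w hw rfl

/-- Rotation about the edge `x p`, towards the vertices of larger slope. -/
lemma rotate [DecidableEq E] {W : Finset E} {c k : E →ₗ[ℝ] ℝ} {x p : E} (hx : x ∈ W)
    (hk : ∀ w ∈ W, w ≠ x → k x < k w) (hxp : x ≠ p) (hedge : Face W {x, p}) {w1 : E}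
    (hw1 : w1 ∈ W) (hw1x : w1 ≠ x)
    (hs : (c x - c p) / (k p - k x) < (c x - c w1) / (k w1 - k x)) :
    ∃ S, Face W S ∧ x ∈ S ∧ p ∈ S ∧ (∃ w0 ∈ S, w0 ≠ x ∧ w0 ≠ p) ∧
      ∀ w ∈ S, w ≠ x → w ≠ p → (c x - c p) / (k p - k x) < (c x - c w) / (k w - k x) := by
  classical
  have hp : p ∈ W := hedge.subset (by simp)
  obtain ⟨-, h, r, hh0, hh1⟩ := hedge
  set sp := (c x - c p) / (k p - k x) with hsp
  have hkp := hk p hp hxp.symm
  have hspk : sp * (k p - k x) = c x - c p := by
    rw [hsp, div_mul_cancel₀]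
    linarith
  let g : E → ℝ := fun w => (c x - c w) - sp * (k w - k x)
  have hg : ∀ w ∈ W, w ≠ x → (0 < g w ↔ sp < (c x - c w) / (k w - k x)) := by
    intro w hw hwx
    have := hk w hw hwx
    rw [lt_div_iff₀ (by linarith)]
    simp only [g]
    constructor <;> intro h <;> linarith
  have hgx : g x = 0 := by simp [g]
  have hgp : g p = 0 := by simp only [g]; linarith
  have hhx : h x = r := hh0 x (by simp)
  have hhp : h p = r := hh0 p (by simp)
  obtain ⟨w0, hw0, hmin⟩ := Finset.exists_min_image (W.filter (fun w => 0 < g w))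
    (fun w => (h w - r) / g w) ⟨w1, Finset.mem_filter.2 ⟨hw1, (hg w1 hw1 hw1x).2 hs⟩⟩
  have hw0' := Finset.mem_filter.1 hw0
  set t := (h w0 - r) / g w0 with ht
  have ht0 : 0 < t := by
    have : w0 ∉ ({x, p} : Finset E) := by
      intro hm
      simp only [Finset.mem_insert, Finset.mem_singleton] at hm
      rcases hm with hm | hm
      · have := hw0'.2; rw [hm, hgx] at this; exact lt_irrefl _ this
      · have := hw0'.2; rw [hm, hgp] at this; exact lt_irrefl _ this
    exact div_pos (by linarith [hh1 w0 hw0'.1 this]) hw0'.2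
  have hnn : ∀ w ∈ W, 0 ≤ (h w - r) - t * g w := by
    intro w hw
    by_cases hgw : 0 < g w
    · have := hmin w (Finset.mem_filter.2 ⟨hw, hgw⟩)
      rw [le_div_iff₀ hgw] at this
      linarith
    · push Not at hgw
      have : 0 ≤ h w - r := by
        by_cases hm : w ∈ ({x, p} : Finset E)
        · rw [hh0 w hm]; simp
        · linarith [hh1 w hw hm]
      nlinarith
  refine ⟨W.filter (fun w => (h w - r) - t * g w = 0), ⟨Finset.filter_subset _ _,
    h + t • (c + sp • k), r + t * (c x + sp * k x), ?_, ?_⟩, ?_, ?_, ⟨w0, ?_, ?_, ?_⟩, ?_⟩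
  · intro w hw
    have := (Finset.mem_filter.1 hw).2
    simp only [g] at this
    simp only [LinearMap.add_apply, LinearMap.smul_apply, smul_eq_mul]
    linarith
  · intro w hw hw'
    have h1 := hnn w hw
    have h2 : (h w - r) - t * g w ≠ 0 := fun h => hw' (Finset.mem_filter.2 ⟨hw, h⟩)
    have h3 := lt_of_le_of_ne h1 h2.symm
    simp only [g] at h3
    simp only [LinearMap.add_apply, LinearMap.smul_apply, smul_eq_mul]
    linarith
  · exact Finset.mem_filter.2 ⟨hx, by rw [hgx, hhx]; ring⟩
  · exact Finset.mem_filter.2 ⟨hp, by rw [hgp, hhp]; ring⟩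
  · refine Finset.mem_filter.2 ⟨hw0'.1, ?_⟩
    rw [ht, div_mul_cancel₀ _ hw0'.2.ne']
    ring
  · rintro rfl
    rw [hgx] at hw0'
    exact lt_irrefl _ hw0'.2
  · rintro rfl
    rw [hgp] at hw0'
    exact lt_irrefl _ hw0'.2
  · intro w hw hwx hwp
    have hw' := Finset.mem_filter.1 hw
    rw [← hg w hw'.1 hwx]
    have h1 : r < h w := hh1 w hw'.1 (by simp [hwx, hwp])
    have h2 : t * g w = h w - r := by linarith [hw'.2]
    by_contra hneg
    push Not at hneg
    nlinarith

/-- the face of the vertices of largest slope -/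
lemma topslope [DecidableEq E] {W : Finset E} {c k : E →ₗ[ℝ] ℝ} {x p : E} (hx : x ∈ W)
    (hp : p ∈ W) (hxp : x ≠ p) (hk : ∀ w ∈ W, w ≠ x → k x < k w)
    (hs : ∀ w ∈ W, w ≠ x → (c x - c w) / (k w - k x) ≤ (c x - c p) / (k p - k x)) :
    ∃ S, Face W S ∧ x ∈ S ∧ p ∈ S ∧
      ∀ w ∈ W, (w ∈ S ∧ w ≠ x) ↔ (w ≠ x ∧ (c x - c w) / (k w - k x) = (c x - c p) / (k p - k x)) := by
  classical
  set sp := (c x - c p) / (k p - k x) with hsp
  have hkp := hk p hp hxp.symm
  have hspk : sp * (k p - k x) = c x - c p := by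
    rw [hsp, div_mul_cancel₀]
    linarith
  have hle : ∀ w ∈ W, w ≠ x → c x - c w ≤ sp * (k w - k x) := by
    intro w hw hwx
    have h1 := hk w hw hwx
    have h2 := hs w hw hwx
    rwa [div_le_iff₀ (by linarith)] at h2
  refine ⟨W.filter (fun w => sp * (k w - k x) - (c x - c w) = 0), ⟨Finset.filter_subset _ _,
    sp • k + c, sp * k x + c x, ?_, ?_⟩, ?_, ?_, ?_⟩
  · intro w hw
    have := (Finset.mem_filter.1 hw).2
    simp only [LinearMap.add_apply, LinearMap.smul_apply, smul_eq_mul]
    linarith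
  · intro w hw hw'
    have hne : w ≠ x := by
      rintro rfl
      exact hw' (Finset.mem_filter.2 ⟨hw, by ring⟩)
    have h1 := hle w hw hne
    have h2 : sp * (k w - k x) - (c x - c w) ≠ 0 := fun h => hw' (Finset.mem_filter.2 ⟨hw, h⟩)
    have h3 : 0 < sp * (k w - k x) - (c x - c w) := lt_of_le_of_ne (by linarith) h2.symm
    simp only [LinearMap.add_apply, LinearMap.smul_apply, smul_eq_mul]
    linarith
  · exact Finset.mem_filter.2 ⟨hx, by ring⟩
  · exact Finset.mem_filter.2 ⟨hp, by linarith⟩
  · intro w hw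
    constructor
    · rintro ⟨h1, h2⟩
      refine ⟨h2, ?_⟩
      have h3 := (Finset.mem_filter.1 h1).2
      have h4 := hk w hw h2
      rw [div_eq_iff (by linarith)]
      linarith
    · rintro ⟨h1, h2⟩
      have h4 := hk w hw h1
      rw [div_eq_iff (by linarith)] at h2
      exact ⟨Finset.mem_filter.2 ⟨hw, by linarith⟩, h1⟩

end Q139.Orn
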