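import Mathlib
import Pool.Agent.Q139.Orn.Path

/-!
# Intervals with four elements: a square or two triangles
-/

set_option autoImplicit false

namespace Q139.Orn

open Relation

variable {E : Type*} [AddCommGroup E] [Module ℝ E]

/-- If exactly `z, p, q, x` lie below `x`, where `p, q` are neighbours of `x` and not adjacent, then
some face contains `z, p, x` and has no vertices outside `{z, p, q, x}`. -/
theorem star_face [DecidableEq E] {W : Finset E} (hexp : ∀ w ∈ W, Face W {w})
    {c : E →ₗ[ℝ] ℝ} (hc : ∀ u w, u ≠ w → Face W {u, w} → c u ≠ c w) {x z p q : E}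
    (hx : x ∈ W) (hz : z ∈ W) (hzp : z ≠ p) (hzq : z ≠ q) (hpq : p ≠ q)
    (hbelow : ∀ w ∈ W, ReflTransGen (Arrow W c) w x → w = z ∨ w = p ∨ w = q ∨ w = x)
    (hxp : Face W {x, p}) (hxq : Face W {x, q}) (hcp : c p < c x) (hcq : c q < c x)
    (hcz : c z < c x) (hnot : ¬ Face W {p, q}) :
    ∃ S, Face W S ∧ z ∈ S ∧ p ∈ S ∧ x ∈ S ∧ ∀ w ∈ S, w = z ∨ w = p ∨ w = q ∨ w = x := by
  classical
  have hp : p ∈ W := hxp.subset (by simp)
  have hq : q ∈ W := hxq.subset (by simp)
  have hpx : p ≠ x := by rintro rfl; exact lt_irrefl _ hcp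
  have hqx : q ≠ x := by rintro rfl; exact lt_irrefl _ hcq
  have hzx : z ≠ x := by rintro rfl; exact lt_irrefl _ hcz
  obtain ⟨-, k, rk, hk0, hk1⟩ := hexp x hx
  have hk : ∀ w ∈ W, w ≠ x → k x < k w := fun w hw hwx => by
    rw [hk0 x (by simp)]; exact hk1 w hw (by simpa using hwx)
  set s : E → ℝ := fun w => (c x - c w) / (k w - k x) with hs
  have spos : ∀ w ∈ W, w ≠ x → 0 < s w → c w < c x := by
    intro w hw hwx h
    have := hk w hw hwx
    rw [hs] at h
    simp only [] at h
    rw [lt_div_iff₀ (by linarith)] at h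
    linarith
  have sp0 : 0 < s p := div_pos (by linarith) (by linarith [hk p hp hpx])
  have sq0 : 0 < s q := div_pos (by linarith) (by linarith [hk q hq hqx])
  have sz0 : 0 < s z := div_pos (by linarith) (by linarith [hk z hz hzx])
  -- a face all of whose other vertices are lower than `x`
  have inside : ∀ S, Face W S → x ∈ S → (∀ w ∈ S, w ≠ x → 0 < s w) →
      ∀ w ∈ S, w = z ∨ w = p ∨ w = q ∨ w = x := by
    intro S hS hxS hlow w hw
    refine hbelow w (hS.subset hw) (below_of_max hexp hc hS hxS ?_ w hw)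
    intro u hu
    by_cases hux : u = x
    · rw [hux]
    · exact (spos u (hS.subset hu) hux (hlow u hu hux)).le
  -- no face is the triangle `p q x`
  have notri : ∀ S, Face W S → x ∈ S → p ∈ S → q ∈ S →
      (∀ w ∈ S, w = z ∨ w = p ∨ w = q ∨ w = x) → z ∈ S := by
    intro S hS hxS hpS hqS hin
    by_contra hzS
    have : S = {p, q, x} := by
      ext w
      simp only [Finset.mem_insert, Finset.mem_singleton]
      constructor
      · intro hw
        rcases hin w hw with rfl | h | h | h
        · exact absurd hw hzS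
        · exact Or.inl h
        · exact Or.inr (Or.inl h)
        · exact Or.inr (Or.inr h)
      · rintro (rfl | rfl | rfl) <;> assumption
    rw [this] at hS
    exact hnot (tri hexp hpq hpx hqx hS)
  by_cases h1 : ∃ w1 ∈ W, w1 ≠ x ∧ s p < s w1
  · obtain ⟨w1, hw1, hw1x, hlt⟩ := h1
    obtain ⟨S, hS, hxS, hpS, ⟨w0, hw0, hw0x, hw0p⟩, hsl⟩ :=
      rotate hx hk hpx.symm hxp hw1 hw1x hlt
    have hin := inside S hS hxS (fun w hw hwx => by
      by_cases hwp : w = p
      · rw [hwp]; exact sp0
      · exact sp0.trans (hsl w hw hwx hwp))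
    refine ⟨S, hS, ?_, hpS, hxS, hin⟩
    rcases hin w0 hw0 with h | h | h | h
    · rw [← h]; exact hw0
    · exact absurd h hw0p
    · rw [h] at hw0
      exact notri S hS hxS hpS hw0 hin
    · exact absurd h hw0x
  · push Not at h1
    obtain ⟨T, hT, hxT, hpT, hTm⟩ := topslope hx hp hpx.symm hk h1
    have hinT := inside T hT hxT (fun w hw hwx => by
      have := ((hTm w (hT.subset hw)).1 ⟨hw, hwx⟩).2
      show 0 < (c x - c w) / (k w - k x)
      rw [this]; exact sp0)
    by_cases hzT : z ∈ T
    · exact ⟨T, hT, hzT, hpT, hxT, hinT⟩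
    have hqT : q ∉ T := fun h => hzT (notri T hT hxT hpT h hinT)
    have hsq : s q < s p := by
      refine lt_of_le_of_ne (h1 q hq hqx) fun h => hqT ?_
      exact ((hTm q hq).2 ⟨hqx, h⟩).1
    have hsz : s z < s p := by
      refine lt_of_le_of_ne (h1 z hz hzx) fun h => hzT ?_
      exact ((hTm z hz).2 ⟨hzx, h⟩).1
    obtain ⟨S, hS, hxS, hqS, ⟨w0, hw0, hw0x, hw0q⟩, hsl⟩ :=
      rotate hx hk hqx.symm hxq hp hpx hsq
    have hin := inside S hS hxS (fun w hw hwx => by
      by_cases hwq : w = q
      · rw [hwq]; exact sq0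
      · exact sq0.trans (hsl w hw hwx hwq))
    have hzS : z ∈ S := by
      rcases hin w0 hw0 with h | h | h | h
      · rw [← h]; exact hw0
      · rw [h] at hw0
        exact notri S hS hxS hw0 hqS hin
      · exact absurd h hw0q
      · exact absurd h hw0x
    by_cases hpS : p ∈ S
    · exact ⟨S, hS, hzS, hpS, hxS, hin⟩
    have hSeq : S = {x, z, q} := by
      ext w
      simp only [Finset.mem_insert, Finset.mem_singleton]
      constructor
      · intro hw
        rcases hin w hw with h | rfl | h | h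
        · exact Or.inr (Or.inl h)
        · exact absurd hw hpS
        · exact Or.inr (Or.inr h)
        · exact Or.inl h
      · rintro (rfl | rfl | rfl) <;> assumption
    have hxz : Face W {x, z} := tri hexp hzx.symm hqx.symm hzq (hSeq ▸ hS)
    have hslz : s q < s z := hsl z hzS hzx hzq
    obtain ⟨S', hS', hxS', hzS', ⟨w0', hw0', hw0x', hw0z'⟩, hsl'⟩ :=
      rotate hx hk hzx.symm hxz hp hpx hsz
    have hin' := inside S' hS' hxS' (fun w hw hwx => by
      by_cases hwz : w = z
      · rw [hwz]; exact sz0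
      · exact sz0.trans (hsl' w hw hwx hwz))
    refine ⟨S', hS', hzS', ?_, hxS', hin'⟩
    rcases hin' w0' hw0' with h | h | h | h
    · exact absurd h hw0z'
    · rw [← h]; exact hw0'
    · exfalso
      have h3 : s z < s w0' := hsl' w0' hw0' hw0x' hw0z'
      rw [h] at h3
      exact lt_irrefl _ (h3.trans hslz)
    · exact absurd h hw0x'

/-- A face with the four vertices `z, p, q, x`, where `p, q` are not adjacent, is flat. -/
theorem flat [DecidableEq E] {W : Finset E} {x z p q : E}
    (hpx : p ≠ x) (hqx : q ≠ x) (hzp : z ≠ p) (hzq : z ≠ q)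
    {S : Finset E} (hS : Face W S) (hpS : p ∈ S) (hqS : q ∈ S)
    (hin : ∀ w ∈ S, w = z ∨ w = p ∨ w = q ∨ w = x) (hnot : ¬ Face W {p, q}) :
    ∃ l : Fin 3 → ℝ, l ≠ 0 ∧ l 0 • (p - z) + l 1 • (q - z) + l 2 • (x - z) = 0 := by
  classical
  by_contra hcon
  push Not at hcon
  apply hnot
  obtain ⟨f, hf⟩ := exists_dual_values ![p - z, q - z, x - z] ![-1, -1, 0] (by
    intro l hl
    have : l = 0 := by
      by_contra hne
      apply hcon l hne
      simpa [Fin.sum_univ_three] using hl
    subst this
    simp)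
  have f0 := hf 0
  have f1 := hf 1
  have f2 := hf 2
  simp only [Matrix.cons_val_zero, Matrix.cons_val_one, Matrix.cons_val, map_sub] at f0 f1 f2
  refine hS.sub (by
    intro w
    simp only [Finset.mem_insert, Finset.mem_singleton]
    rintro (rfl | rfl) <;> assumption) f (f z - 1) ?_ ?_
  · intro w hw
    simp only [Finset.mem_insert, Finset.mem_singleton] at hw
    rcases hw with rfl | rfl <;> linarith
  · intro w hw hw'
    simp only [Finset.mem_insert, Finset.mem_singleton, not_or] at hw'
    rcases hin w hw with rfl | h | h | rfl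
    · linarith
    · exact absurd h hw'.1
    · exact absurd h hw'.2
    · linarith

end Q139.Orn
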