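import Mathlib
import Pool.Agent.Q139.Orn.Star

/-!
# The dimension at a vertex with three lower and three upper comparable vertices
-/

set_option autoImplicit false

namespace Q139.Orn

open Relation Module

variable {E : Type*} [AddCommGroup E] [Module ℝ E]

lemma arrow_neg [DecidableEq E] {W : Finset E} {c : E →ₗ[ℝ] ℝ} {u w : E} :
    Arrow W (-c) u w ↔ Arrow W c w u := by
  unfold Arrow
  rw [Finset.pair_comm u w]
  simp only [LinearMap.neg_apply, neg_lt_neg_iff, ne_comm]

lemma rtg_neg [DecidableEq E] {W : Finset E} {c : E →ₗ[ℝ] ℝ} {u w : E} :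
    ReflTransGen (Arrow W (-c)) u w ↔ ReflTransGen (Arrow W c) w u := by
  rw [← reflTransGen_swap]
  have : Function.swap (Arrow W (-c)) = Arrow W c := by
    funext a b
    exact propext arrow_neg
  rw [this]

lemma hc_neg [DecidableEq E] {W : Finset E} {c : E →ₗ[ℝ] ℝ}
    (hc : ∀ u w, u ≠ w → Face W {u, w} → c u ≠ c w) :
    ∀ u w, u ≠ w → Face W {u, w} → (-c) u ≠ (-c) w := by
  intro u w h1 h2 h3
  exact hc u w h1 h2 (by simpa using h3)

lemma face_self [DecidableEq E] (W : Finset E) : Face W W :=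
  ⟨subset_rfl, 0, 0, by simp, fun w hw h => absurd hw h⟩

/-- a local minimum is a global minimum -/
lemma local_global [DecidableEq E] {W : Finset E} (hexp : ∀ w ∈ W, Face W {w}) {v : E}
    (hv : v ∈ W) (f : E →ₗ[ℝ] ℝ) (hf : ∀ n, Face W {v, n} → n ≠ v → f v ≤ f n) :
    ∀ w ∈ W, f v ≤ f w := by
  intro w hw
  by_contra hneg
  push Not at hneg
  obtain ⟨u, -, hfu, hedge⟩ := exists_edge hexp _ _ rfl (face_self W) v hv f ⟨w, hw, hneg⟩
  have := hf u hedge (by rintro rfl; exact lt_irrefl _ hfu)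
  linarith

lemma claimU [DecidableEq E] {W : Finset E} (hexp : ∀ w ∈ W, Face W {w})
    {c : E →ₗ[ℝ] ℝ} (hc : ∀ u w, u ≠ w → Face W {u, w} → c u ≠ c w) {v t A B : E}
    (hv : v ∈ W)
    (habove : ∀ w ∈ W, ReflTransGen (Arrow W c) v w → w = t ∨ w = A ∨ w = B ∨ w = v)
    (hA : Face W {v, A}) (hB : Face W {v, B}) (hcA : c v < c A) (hcB : c v < c B)
    (hAB : A ≠ B) (hnot : ¬ Face W {A, B}) (ht : Face W {v, t}) (htv : t ≠ v) (htA : t ≠ A)
    (htB : t ≠ B) (f : E →ₗ[ℝ] ℝ) (fA : f A = f v) (fB : f B = f v)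
    (hf : ∀ n, Face W {v, n} → n ≠ v → n ≠ A → n ≠ B → f v < f n) : False := by
  classical
  have hAW : A ∈ W := hA.subset (by simp)
  have hBW : B ∈ W := hB.subset (by simp)
  have hAv : A ≠ v := by rintro rfl; exact lt_irrefl _ hcA
  have hBv : B ≠ v := by rintro rfl; exact lt_irrefl _ hcB
  have hge : ∀ w ∈ W, f v ≤ f w := by
    apply local_global hexp hv
    intro n hn hnv
    by_cases h1 : n = A
    · rw [h1, fA]
    by_cases h2 : n = B
    · rw [h2, fB]
    exact (hf n hn hnv h1 h2).le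
  have hS : Face W (W.filter (fun w => f w = f v)) := by
    refine ⟨Finset.filter_subset _ _, f, f v, fun w hw => (Finset.mem_filter.1 hw).2, ?_⟩
    intro w hw hw'
    exact lt_of_le_of_ne (hge w hw) fun h => hw' (Finset.mem_filter.2 ⟨hw, h.symm⟩)
  set S := W.filter (fun w => f w = f v) with hSdef
  have hvS : v ∈ S := Finset.mem_filter.2 ⟨hv, rfl⟩
  have hmin : ∀ w ∈ S, (-c) w ≤ (-c) v := by
    intro w hw
    by_contra hneg
    push Not at hneg
    simp only [LinearMap.neg_apply, neg_lt_neg_iff] at hneg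
    obtain ⟨u, hu, hcu, hedge⟩ := exists_edge hexp _ _ rfl hS v hvS c ⟨w, hw, hneg⟩
    have h1 := hf u hedge (by rintro rfl; exact lt_irrefl _ hcu)
      (by rintro rfl; linarith) (by rintro rfl; linarith)
    have h2 := (Finset.mem_filter.1 hu).2
    linarith
  have hall := below_of_max hexp (hc_neg hc) hS hvS hmin
  have hSeq : S = {A, B, v} := by
    ext w
    simp only [Finset.mem_insert, Finset.mem_singleton]
    constructor
    · intro hw
      rcases habove w (hS.subset hw) (rtg_neg.1 (hall w hw)) with h | h | h | h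
      · exfalso
        have h1 := hf t ht htv htA htB
        have h2 := (Finset.mem_filter.1 hw).2
        rw [h] at h2
        linarith
      · exact Or.inl h
      · exact Or.inr (Or.inl h)
      · exact Or.inr (Or.inr h)
    · rintro (rfl | rfl | rfl)
      · exact Finset.mem_filter.2 ⟨hAW, fA⟩
      · exact Finset.mem_filter.2 ⟨hBW, fB⟩
      · exact hvS
  exact hnot (tri hexp hAB hAv hBv (hSeq ▸ hS))

/-- If no positive values make the weighted sum vanish, the weights have one sign. -/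
lemma sign4 (a : Fin 4 → ℝ) (h : ∀ φ : Fin 4 → ℝ, (∀ i, 0 < φ i) → ∑ i, a i * φ i ≠ 0) :
    ((∀ i, 0 ≤ a i) ∧ ∃ i, 0 < a i) ∨ ((∀ i, a i ≤ 0) ∧ ∃ i, a i < 0) := by
  classical
  have h1 : ∑ i, a i ≠ 0 := by simpa using h (fun _ => 1) (fun _ => one_pos)
  by_cases hpos : ∀ i, 0 ≤ a i
  · left
    refine ⟨hpos, ?_⟩
    by_contra hcon
    push Not at hcon
    exact h1 (Finset.sum_eq_zero fun i _ => le_antisymm (hcon i) (hpos i))
  by_cases hneg : ∀ i, a i ≤ 0
  · right
    refine ⟨hneg, ?_⟩
    by_contra hcon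
    push Not at hcon
    exact h1 (Finset.sum_eq_zero fun i _ => le_antisymm (hneg i) (hcon i))
  exfalso
  push Not at hpos hneg
  obtain ⟨i, hi⟩ := hpos
  obtain ⟨j, hj⟩ := hneg
  have adj : ∀ (m : Fin 4) (e : ℝ), ∑ n, a n * (1 + if n = m then e else 0) = ∑ n, a n + a m * e := by
    intro m e
    simp only [mul_add, mul_one, Finset.sum_add_distrib, mul_ite, mul_zero, Finset.sum_ite_eq',
      Finset.mem_univ, if_true]
  rcases lt_or_gt_of_ne h1 with hs | hs
  · apply h (fun n => 1 + if n = j then -(∑ n, a n) / a j else 0)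
    · intro n
      split_ifs
      · have : 0 < -(∑ n, a n) / a j := div_pos (by linarith) hj
        linarith
      · norm_num
    · rw [adj, mul_div_cancel₀ _ hj.ne']
      ring
  · apply h (fun n => 1 + if n = i then -(∑ n, a n) / a i else 0)
    · intro n
      split_ifs
      · have : 0 < -(∑ n, a n) / a i := div_pos_of_neg_of_neg (by linarith) hi
        linarith
      · norm_num
    · rw [adj, mul_div_cancel₀ _ hi.ne]
      ring

/-- the span of all edge vectors at `v` contains everything -/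
lemma span_nb [DecidableEq E] {W : Finset E} (hexp : ∀ w ∈ W, Face W {w}) {v : E} (hv : v ∈ W)
    {ι : Type*} (y : ι → E) (hy : ∀ n, Face W {v, n} → n ≠ v → ∃ i, y i = n - v) :
    ∀ w ∈ W, w - v ∈ Submodule.span ℝ (Set.range y) := by
  intro w hw
  by_contra hneg
  obtain ⟨f, hf, hker⟩ := Submodule.exists_le_ker_of_notMem hneg
  have hz : ∀ n, Face W {v, n} → n ≠ v → f n = f v := by
    intro n hn hnv
    obtain ⟨i, hi⟩ := hy n hn hnv
    have : f (y i) = 0 := hker (Submodule.subset_span ⟨i, rfl⟩)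
    rw [hi, map_sub] at this
    linarith
  have h1 := local_global hexp hv f (fun n hn hnv => (hz n hn hnv).ge) w hw
  have h2 := local_global hexp hv (-f) (fun n hn hnv => by
    simp only [LinearMap.neg_apply, neg_le_neg_iff]
    exact (hz n hn hnv).le) w hw
  simp only [LinearMap.neg_apply, neg_le_neg_iff] at h2
  apply hf
  rw [map_sub]
  linarith

end Q139.Orn
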