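import Mathlib
import Pool.Agent.Q139.Orn.Dim

/-!
# The dimension at a vertex with three lower and three upper comparable vertices, part two
-/

set_option autoImplicit false

namespace Q139.Orn

open Relation Module

variable {E : Type*} [AddCommGroup E] [Module ℝ E]

/-- the span of the vectors from `v` -/
def spanAt (W : Finset E) (v : E) : Submodule ℝ E :=
  Submodule.span ℝ ((fun w => w - v) '' (W : Set E))

lemma spanAt_le {W : Finset E} {v : E} {ι : Type*} (y : ι → E)
    (h : ∀ w ∈ W, w - v ∈ Submodule.span ℝ (Set.range y)) :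
    spanAt W v ≤ Submodule.span ℝ (Set.range y) := by
  rw [spanAt, Submodule.span_le]
  rintro _ ⟨w, hw, rfl⟩
  exact h w hw

/-- the case of five neighbours -/
lemma five [DecidableEq E] [FiniteDimensional ℝ E] {W : Finset E} (hexp : ∀ w ∈ W, Face W {w})
    {c : E →ₗ[ℝ] ℝ} (hc : ∀ u w, u ≠ w → Face W {u, w} → c u ≠ c w) {v t A B p q : E}
    (hv : v ∈ W)
    (habove : ∀ w ∈ W, ReflTransGen (Arrow W c) v w → w = t ∨ w = A ∨ w = B ∨ w = v)
    (hA : Face W {v, A}) (hB : Face W {v, B}) (hcA : c v < c A) (hcB : c v < c B)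
    (hAB : A ≠ B) (hnot : ¬ Face W {A, B}) (ht : Face W {v, t}) (htv : t ≠ v) (htA : t ≠ A)
    (htB : t ≠ B)
    (hnb : ∀ n, Face W {v, n} → n ≠ v → n = p ∨ n = q ∨ n = A ∨ n = B ∨ n = t) :
    finrank ℝ (spanAt W v) ≤ 4 := by
  set y : Fin 5 → E := ![p - v, q - v, t - v, A - v, B - v] with hy
  have hsp : spanAt W v ≤ Submodule.span ℝ (Set.range y) := by
    apply spanAt_le
    apply span_nb hexp hv
    intro n hn hnv
    rcases hnb n hn hnv with rfl | rfl | rfl | rfl | rfl
    · exact ⟨0, rfl⟩
    · exact ⟨1, rfl⟩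
    · exact ⟨3, rfl⟩
    · exact ⟨4, rfl⟩
    · exact ⟨2, rfl⟩
  refine (Submodule.finrank_mono hsp).trans ?_
  have hle : finrank ℝ (Submodule.span ℝ (Set.range y)) ≤ 5 := by
    have h := finrank_range_le_card (R := ℝ) y
    unfold Set.finrank at h
    simpa using h
  have hne : finrank ℝ (Submodule.span ℝ (Set.range y)) ≠ 5 := by
    intro h5
    have hli : LinearIndependent ℝ y := by
      rw [linearIndependent_iff_card_eq_finrank_span]
      simpa [Set.finrank] using h5.symm
    obtain ⟨f, hf⟩ := exists_dual_values y ![1, 1, 1, 0, 0] (by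
      intro l hl
      have := Fintype.linearIndependent_iff.1 hli l hl
      simp [this])
    have f0 := hf 0
    have f1 := hf 1
    have f2 := hf 2
    have f3 := hf 3
    have f4 := hf 4
    simp only [hy, Matrix.cons_val_zero, Matrix.cons_val_one, Matrix.cons_val, map_sub]
      at f0 f1 f2 f3 f4
    refine claimU hexp hc hv habove hA hB hcA hcB hAB hnot ht htv htA htB f (by linarith)
      (by linarith) ?_
    intro n hn hnv hnA hnB
    rcases hnb n hn hnv with rfl | rfl | h | h | rfl
    · linarith
    · linarith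
    · exact absurd h hnA
    · exact absurd h hnB
    · linarith
  omega

/-- the case of six neighbours: the final sign argument -/
lemma six_signs [DecidableEq E] {W : Finset E}
    {c : E →ₗ[ℝ] ℝ} {v z p q t A B : E}
    (hA : Face W {v, A}) (hB : Face W {v, B}) (hcA : c v < c A) (hcB : c v < c B)
    (hcp : c p < c v) (hcq : c q < c v)
    (hz : z ∈ W) (hp : p ∈ W) (hq : q ∈ W) (ht : t ∈ W)
    (hzv : z ≠ v) (htv : t ≠ v) (hzA : z ≠ A) (hzB : z ≠ B) (htA : t ≠ A) (htB : t ≠ B)
    (hAB : A ≠ B)
    (l : Fin 6 → ℝ)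
    (hl : ∑ i, l i • ![z - v, p - v, q - v, t - v, A - v, B - v] i = 0)
    (h0 : 0 ≤ l 0) (h1 : 0 ≤ l 1) (h2 : 0 ≤ l 2) (h3 : 0 ≤ l 3)
    (hex : 0 < l 0 ∨ 0 < l 1 ∨ 0 < l 2 ∨ 0 < l 3)
    (hD : (0 ≤ l 0 ∧ 0 ≤ l 3 ∧ 0 ≤ l 4 ∧ 0 ≤ l 5) ∨ (l 0 ≤ 0 ∧ l 3 ≤ 0 ∧ l 4 ≤ 0 ∧ l 5 ≤ 0)) :
    False := by
  have hpA : p ≠ A := by rintro rfl; linarith
  have hpB : p ≠ B := by rintro rfl; linarith
  have hqA : q ≠ A := by rintro rfl; linarith
  have hqB : q ≠ B := by rintro rfl; linarith
  have hpv : p ≠ v := by rintro rfl; exact lt_irrefl _ hcp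
  have hqv : q ≠ v := by rintro rfl; exact lt_irrefl _ hcq
  have hAv : A ≠ v := by rintro rfl; exact lt_irrefl _ hcA
  have hBv : B ≠ v := by rintro rfl; exact lt_irrefl _ hcB
  have key : ∀ f : E →ₗ[ℝ] ℝ, l 0 * (f z - f v) + l 1 * (f p - f v) + l 2 * (f q - f v) +
      l 3 * (f t - f v) + l 4 * (f A - f v) + l 5 * (f B - f v) = 0 := by
    intro f
    have := congrArg f hl
    simpa [Fin.sum_univ_six] using this
  have hAW : A ∈ W := hA.subset (by simp)
  have hBW : B ∈ W := hB.subset (by simp)
  have h5 : l 5 < 0 := by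
    obtain ⟨-, f, r, hf0, hf1⟩ := hA
    have e := key f
    rw [hf0 v (by simp), hf0 A (by simp)] at e
    have ez := hf1 z hz (by simp [hzv, hzA])
    have ep := hf1 p hp (by simp [hpv, hpA])
    have eq := hf1 q hq (by simp [hqv, hqA])
    have et := hf1 t ht (by simp [htv, htA])
    have eB := hf1 B hBW (by simp [hBv, hAB.symm])
    by_contra hneg
    push Not at hneg
    have m0 := mul_nonneg h0 (by linarith : 0 ≤ f z - r)
    have m1 := mul_nonneg h1 (by linarith : 0 ≤ f p - r)
    have m2 := mul_nonneg h2 (by linarith : 0 ≤ f q - r)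
    have m3 := mul_nonneg h3 (by linarith : 0 ≤ f t - r)
    have m5 := mul_nonneg hneg (by linarith : 0 ≤ f B - r)
    rcases hex with h | h | h | h
    · have := mul_pos h (by linarith : 0 < f z - r)
      linarith
    · have := mul_pos h (by linarith : 0 < f p - r)
      linarith
    · have := mul_pos h (by linarith : 0 < f q - r)
      linarith
    · have := mul_pos h (by linarith : 0 < f t - r)
      linarith
  have h4 : l 4 < 0 := by
    obtain ⟨-, f, r, hf0, hf1⟩ := hB
    have e := key f
    rw [hf0 v (by simp), hf0 B (by simp)] at e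
    have ez := hf1 z hz (by simp [hzv, hzB])
    have ep := hf1 p hp (by simp [hpv, hpB])
    have eq := hf1 q hq (by simp [hqv, hqB])
    have et := hf1 t ht (by simp [htv, htB])
    have eA := hf1 A hAW (by simp [hAv, hAB])
    by_contra hneg
    push Not at hneg
    have m0 := mul_nonneg h0 (by linarith : 0 ≤ f z - r)
    have m1 := mul_nonneg h1 (by linarith : 0 ≤ f p - r)
    have m2 := mul_nonneg h2 (by linarith : 0 ≤ f q - r)
    have m3 := mul_nonneg h3 (by linarith : 0 ≤ f t - r)
    have m4 := mul_nonneg hneg (by linarith : 0 ≤ f A - r)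
    rcases hex with h | h | h | h
    · have := mul_pos h (by linarith : 0 < f z - r)
      linarith
    · have := mul_pos h (by linarith : 0 < f p - r)
      linarith
    · have := mul_pos h (by linarith : 0 < f q - r)
      linarith
    · have := mul_pos h (by linarith : 0 < f t - r)
      linarith
  rcases hD with ⟨-, -, hD4, -⟩ | ⟨hD0, hD3, -, -⟩
  · linarith
  · have e0 : l 0 = 0 := le_antisymm hD0 h0
    have e3 : l 3 = 0 := le_antisymm hD3 h3
    have e := key c
    rw [e0, e3] at e
    have m1 := mul_nonneg h1 (by linarith : 0 ≤ c v - c p)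
    have m2 := mul_nonneg h2 (by linarith : 0 ≤ c v - c q)
    have m4 := mul_pos (neg_pos.2 h4) (by linarith : 0 < c A - c v)
    have m5 := mul_pos (neg_pos.2 h5) (by linarith : 0 < c B - c v)
    nlinarith

/-- **The dimension bound.** -/
theorem finrank_le_four [DecidableEq E] [FiniteDimensional ℝ E] {W : Finset E}
    (hexp : ∀ w ∈ W, Face W {w})
    {c : E →ₗ[ℝ] ℝ} (hc : ∀ u w, u ≠ w → Face W {u, w} → c u ≠ c w) {v z p q t A B : E}
    (hv : v ∈ W) (hz : z ∈ W) (ht : t ∈ W)
    (hbelow : ∀ w ∈ W, ReflTransGen (Arrow W c) w v → w = z ∨ w = p ∨ w = q ∨ w = v)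
    (habove : ∀ w ∈ W, ReflTransGen (Arrow W c) v w → w = t ∨ w = A ∨ w = B ∨ w = v)
    (hp : Face W {v, p}) (hq : Face W {v, q}) (hA : Face W {v, A}) (hB : Face W {v, B})
    (hcz : c z < c v) (hcp : c p < c v) (hcq : c q < c v)
    (hct : c v < c t) (hcA : c v < c A) (hcB : c v < c B)
    (hzp : z ≠ p) (hzq : z ≠ q) (hpq : p ≠ q) (htA : t ≠ A) (htB : t ≠ B) (hAB : A ≠ B)
    (hnpq : ¬ Face W {p, q}) (hnAB : ¬ Face W {A, B}) :
    finrank ℝ (spanAt W v) ≤ 4 := by
  classical
  have hzv : z ≠ v := by rintro rfl; exact lt_irrefl _ hcz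
  have htv : t ≠ v := by rintro rfl; exact lt_irrefl _ hct
  have hzA : z ≠ A := by rintro rfl; linarith
  have hzB : z ≠ B := by rintro rfl; linarith
  have hpW : p ∈ W := hp.subset (by simp)
  have hqW : q ∈ W := hq.subset (by simp)
  -- the neighbours of `v`
  have hnb : ∀ n, Face W {v, n} → n ≠ v →
      n = z ∨ n = p ∨ n = q ∨ n = t ∨ n = A ∨ n = B := by
    intro n hn hnv
    have hnW : n ∈ W := hn.subset (by simp)
    rcases lt_or_gt_of_ne (hc v n hnv.symm hn) with h | h
    · rcases habove n hnW (ReflTransGen.single ⟨hnv.symm, hn, h⟩) with h | h | h | h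
      · tauto
      · tauto
      · tauto
      · exact absurd h hnv
    · rcases hbelow n hnW (ReflTransGen.single ⟨hnv, by rw [Finset.pair_comm]; exact hn, h⟩)
        with h | h | h | h
      · tauto
      · tauto
      · tauto
      · exact absurd h hnv
  have hbelow' : ∀ w ∈ W, ReflTransGen (Arrow W (-c)) v w → w = z ∨ w = p ∨ w = q ∨ w = v :=
    fun w hw h => hbelow w hw (rtg_neg.1 h)
  have ncp : (-c) v < (-c) p := by simpa using hcp
  have ncq : (-c) v < (-c) q := by simpa using hcq
  by_cases tN : Face W {v, t}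
  · by_cases zN : Face W {v, z}
    · -- six neighbours
      set y : Fin 6 → E := ![z - v, p - v, q - v, t - v, A - v, B - v] with hy
      have hsp : spanAt W v ≤ Submodule.span ℝ (Set.range y) := by
        apply spanAt_le
        apply span_nb hexp hv
        intro n hn hnv
        rcases hnb n hn hnv with rfl | rfl | rfl | rfl | rfl | rfl
        · exact ⟨0, rfl⟩
        · exact ⟨1, rfl⟩
        · exact ⟨2, rfl⟩
        · exact ⟨3, rfl⟩
        · exact ⟨4, rfl⟩
        · exact ⟨5, rfl⟩
      refine (Submodule.finrank_mono hsp).trans ?_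
      by_contra hgt
      push Not at hgt
      let Φ : (Fin 6 → ℝ) →ₗ[ℝ] E := Fintype.linearCombination ℝ y
      have hrange : LinearMap.range Φ = Submodule.span ℝ (Set.range y) :=
        Fintype.range_linearCombination ℝ y
      have hrn := Φ.finrank_range_add_finrank_ker
      rw [hrange] at hrn
      have hdim : finrank ℝ (Fin 6 → ℝ) = 6 := by simp
      have hker : finrank ℝ (LinearMap.ker Φ) ≤ 1 := by omega
      rw [finrank_le_one_iff] at hker
      obtain ⟨⟨l, hl⟩, hlall⟩ := hker
      have hrel : ∀ m : Fin 6 → ℝ, ∑ i, m i • y i = 0 → ∃ s : ℝ, s • l = m := by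
        intro m hm
        obtain ⟨s, hs⟩ := hlall ⟨m, by
          rw [LinearMap.mem_ker, Fintype.linearCombination_apply]
          exact hm⟩
        exact ⟨s, by simpa using congrArg Subtype.val hs⟩
      have hlrel : ∑ i, l i • y i = 0 := by
        have := hl
        rw [LinearMap.mem_ker, Fintype.linearCombination_apply] at this
        exact this
      -- upper claim
      have hU := sign4 ![l 0, l 1, l 2, l 3] (by
        intro φ hφ hsum
        simp only [Fin.sum_univ_four, Matrix.cons_val_zero, Matrix.cons_val_one,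
          Matrix.cons_val] at hsum
        obtain ⟨f, hf⟩ := exists_dual_values y ![φ 0, φ 1, φ 2, φ 3, 0, 0] (by
          intro m hm
          obtain ⟨s, rfl⟩ := hrel m hm
          simp only [Fin.sum_univ_six, Pi.smul_apply, smul_eq_mul, Matrix.cons_val_zero,
            Matrix.cons_val_one, Matrix.cons_val]
          linear_combination s * hsum)
        have f0 := hf 0
        have f1 := hf 1
        have f2 := hf 2
        have f3 := hf 3
        have f4 := hf 4
        have f5 := hf 5
        simp only [hy, Matrix.cons_val_zero, Matrix.cons_val_one, Matrix.cons_val, map_sub]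
          at f0 f1 f2 f3 f4 f5
        refine claimU hexp hc hv habove hA hB hcA hcB hAB hnAB tN htv htA htB f (by linarith)
          (by linarith) ?_
        intro n hn hnv hnA hnB
        rcases hnb n hn hnv with rfl | rfl | rfl | rfl | h | h
        · linarith [hφ 0]
        · linarith [hφ 1]
        · linarith [hφ 2]
        · linarith [hφ 3]
        · exact absurd h hnA
        · exact absurd h hnB)
      have hD := sign4 ![l 0, l 3, l 4, l 5] (by
        intro φ hφ hsum
        simp only [Fin.sum_univ_four, Matrix.cons_val_zero, Matrix.cons_val_one,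
          Matrix.cons_val] at hsum
        obtain ⟨f, hf⟩ := exists_dual_values y ![φ 0, 0, 0, φ 1, φ 2, φ 3] (by
          intro m hm
          obtain ⟨s, rfl⟩ := hrel m hm
          simp only [Fin.sum_univ_six, Pi.smul_apply, smul_eq_mul, Matrix.cons_val_zero,
            Matrix.cons_val_one, Matrix.cons_val]
          linear_combination s * hsum)
        have f0 := hf 0
        have f1 := hf 1
        have f2 := hf 2
        have f3 := hf 3
        have f4 := hf 4
        have f5 := hf 5
        simp only [hy, Matrix.cons_val_zero, Matrix.cons_val_one, Matrix.cons_val, map_sub]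
          at f0 f1 f2 f3 f4 f5
        refine claimU hexp (hc_neg hc) hv hbelow' hp hq ncp ncq hpq hnpq zN hzv hzp hzq f
          (by linarith) (by linarith) ?_
        intro n hn hnv hnp hnq
        rcases hnb n hn hnv with rfl | h | h | rfl | rfl | rfl
        · linarith [hφ 0]
        · exact absurd h hnp
        · exact absurd h hnq
        · linarith [hφ 1]
        · linarith [hφ 2]
        · linarith [hφ 3])
      rcases hU with ⟨hU1, hU2⟩ | ⟨hU1, hU2⟩
      · have u0 := hU1 0
        have u1 := hU1 1
        have u2 := hU1 2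
        have u3 := hU1 3
        simp only [Matrix.cons_val_zero, Matrix.cons_val_one, Matrix.cons_val] at u0 u1 u2 u3
        refine six_signs hA hB hcA hcB hcp hcq hz hpW hqW ht hzv htv hzA hzB htA htB hAB l
          hlrel u0 u1 u2 u3 ?_ ?_
        · obtain ⟨i, hi⟩ := hU2
          fin_cases i <;> simp at hi <;> tauto
        · rcases hD with ⟨hD1, -⟩ | ⟨hD1, -⟩
          · left
            exact ⟨hD1 0, hD1 1, hD1 2, hD1 3⟩
          · right
            exact ⟨hD1 0, hD1 1, hD1 2, hD1 3⟩
      · have u0 := hU1 0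
        have u1 := hU1 1
        have u2 := hU1 2
        have u3 := hU1 3
        simp only [Matrix.cons_val_zero, Matrix.cons_val_one, Matrix.cons_val] at u0 u1 u2 u3
        refine six_signs hA hB hcA hcB hcp hcq hz hpW hqW ht hzv htv hzA hzB htA htB hAB (-l)
          ?_ ?_ ?_ ?_ ?_ ?_ ?_
        · simp only [Pi.neg_apply, neg_smul, Finset.sum_neg_distrib]
          rw [hlrel, neg_zero]
        · simpa using u0
        · simpa using u1
        · simpa using u2
        · simpa using u3
        · obtain ⟨i, hi⟩ := hU2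
          fin_cases i <;> simp at hi ⊢ <;> tauto
        · simp only [Pi.neg_apply, Left.nonneg_neg_iff, Left.neg_nonpos_iff]
          rcases hD with ⟨hD1, -⟩ | ⟨hD1, -⟩
          · right
            exact ⟨hD1 0, hD1 1, hD1 2, hD1 3⟩
          · left
            exact ⟨hD1 0, hD1 1, hD1 2, hD1 3⟩
    · refine five (p := p) (q := q) hexp hc hv habove hA hB hcA hcB hAB hnAB tN htv htA htB ?_
      intro n hn hnv
      rcases hnb n hn hnv with h | h | h | h | h | h
      · rw [h] at hn
        exact absurd hn zN
      all_goals tauto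
  · by_cases zN : Face W {v, z}
    · refine five (p := A) (q := B) hexp (hc_neg hc) hv hbelow' hp hq ncp ncq hpq hnpq zN hzv
        hzp hzq ?_
      intro n hn hnv
      rcases hnb n hn hnv with h | h | h | h | h | h
      · tauto
      · tauto
      · tauto
      · rw [h] at hn
        exact absurd hn tN
      · tauto
      · tauto
    · have hsp : spanAt W v ≤ Submodule.span ℝ (Set.range ![p - v, q - v, A - v, B - v]) := by
        apply spanAt_le
        apply span_nb hexp hv
        intro n hn hnv
        rcases hnb n hn hnv with h | rfl | rfl | h | rfl | rfl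
        · rw [h] at hn
          exact absurd hn zN
        · exact ⟨0, rfl⟩
        · exact ⟨1, rfl⟩
        · rw [h] at hn
          exact absurd hn tN
        · exact ⟨2, rfl⟩
        · exact ⟨3, rfl⟩
      refine (Submodule.finrank_mono hsp).trans ?_
      have h := finrank_range_le_card (R := ℝ) ![p - v, q - v, A - v, B - v]
      unfold Set.finrank at h
      simpa using h

end Q139.Orn
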