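import Mathlib
import Pool.Agent.Helper479.Bond.VK

/-!
# No `K_{3,3}` in the boundary of a cone of dimension at most four
-/

set_option autoImplicit false

namespace Q139.Orn.K33

variable {U : Type*} [AddCommGroup U] [Module ℝ U]

/-- the projected point -/
noncomputable def pt (g : U →ₗ[ℝ] ℝ) (π : U →ₗ[ℝ] ℂ) (u : U) : ℂ := (g u)⁻¹ • π u

lemma seg_disjoint {g : U →ₗ[ℝ] ℝ} {π : U →ₗ[ℝ] ℂ} {o : U}
    (hπ : ∀ y, π y = 0 → g y = 0 → ∃ s : ℝ, y = s • o) {u1 u2 r1 r2 : U}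
    (gu1 : 0 < g u1) (gu2 : 0 < g u2) (gr1 : 0 < g r1) (gr2 : 0 < g r2)
    {H H' : U →ₗ[ℝ] ℝ} (Hu1 : H u1 = 0) (Hu2 : H u2 = 0) (Hr1 : 0 < H r1) (Hr2 : 0 < H r2)
    (Ho : 0 ≤ H o) (Hr1' : H' r1 = 0) (Hr2' : H' r2 = 0) (Hu1' : 0 < H' u1) (Hu2' : 0 < H' u2)
    (Ho' : 0 ≤ H' o) :
    Disjoint (segment ℝ (pt g π u1) (pt g π u2)) (segment ℝ (pt g π r1) (pt g π r2)) := by
  rw [Set.disjoint_left]
  rintro z ⟨α, β, hα, hβ, hαβ, hz⟩ ⟨γ, δ, hγ, hδ, hγδ, hz'⟩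
  set α' := α * (g u1)⁻¹ with hα'
  set β' := β * (g u2)⁻¹ with hβ'
  set γ' := γ * (g r1)⁻¹ with hγ'
  set δ' := δ * (g r2)⁻¹ with hδ'
  have hy : ∃ s : ℝ, α' • u1 + β' • u2 - (γ' • r1 + δ' • r2) = s • o := by
    apply hπ
    · simp only [map_sub, map_add, map_smul]
      have e1 : α • pt g π u1 + β • pt g π u2 = α' • π u1 + β' • π u2 := by
        simp only [pt, smul_smul, hα', hβ']
      have e2 : γ • pt g π r1 + δ • pt g π r2 = γ' • π r1 + δ' • π r2 := by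
        simp only [pt, smul_smul, hγ', hδ']
      rw [← e1, ← e2, hz, hz', sub_self]
    · simp only [map_sub, map_add, map_smul, smul_eq_mul, hα', hβ', hγ', hδ']
      rw [mul_assoc, mul_assoc, mul_assoc, mul_assoc, inv_mul_cancel₀ gu1.ne',
        inv_mul_cancel₀ gu2.ne', inv_mul_cancel₀ gr1.ne', inv_mul_cancel₀ gr2.ne']
      linarith
  obtain ⟨s, hs⟩ := hy
  have a1 : 0 ≤ α' := mul_nonneg hα (inv_nonneg.2 gu1.le)
  have b1 : 0 ≤ β' := mul_nonneg hβ (inv_nonneg.2 gu2.le)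
  have c1 : 0 ≤ γ' := mul_nonneg hγ (inv_nonneg.2 gr1.le)
  have d1 : 0 ≤ δ' := mul_nonneg hδ (inv_nonneg.2 gr2.le)
  have e := congrArg H hs
  have e' := congrArg H' hs
  simp only [map_sub, map_add, map_smul, smul_eq_mul, Hu1, Hu2, Hr1', Hr2', mul_zero, add_zero,
    zero_sub, sub_zero] at e e'
  rcases le_total 0 s with hs0 | hs0
  · have h1 := mul_nonneg hs0 Ho
    have h2 : 0 < γ' ∨ 0 < δ' := by
      by_contra hcon
      push Not at hcon
      have g0 : γ' = 0 := le_antisymm hcon.1 c1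
      have d0 : δ' = 0 := le_antisymm hcon.2 d1
      rw [hγ', mul_eq_zero] at g0
      rw [hδ', mul_eq_zero] at d0
      have h3 := inv_pos.2 gr1
      have h4 := inv_pos.2 gr2
      rcases g0 with g0 | g0
      · rcases d0 with d0 | d0
        · linarith
        · linarith
      · linarith
    rcases h2 with h2 | h2
    · have := mul_pos h2 Hr1
      have := mul_nonneg d1 Hr2.le
      linarith
    · have := mul_pos h2 Hr2
      have := mul_nonneg c1 Hr1.le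
      linarith
  · have h1 : s * H' o ≤ 0 := mul_nonpos_of_nonpos_of_nonneg hs0 Ho'
    have h2 : 0 < α' ∨ 0 < β' := by
      by_contra hcon
      push Not at hcon
      have g0 : α' = 0 := le_antisymm hcon.1 a1
      have d0 : β' = 0 := le_antisymm hcon.2 b1
      rw [hα', mul_eq_zero] at g0
      rw [hβ', mul_eq_zero] at d0
      have h3 := inv_pos.2 gu1
      have h4 := inv_pos.2 gu2
      rcases g0 with g0 | g0
      · rcases d0 with d0 | d0
        · linarith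
        · linarith
      · linarith
    rcases h2 with h2 | h2
    · have := mul_pos h2 Hu1'
      have := mul_nonneg b1 Hu2'.le
      linarith
    · have := mul_pos h2 Hu2'
      have := mul_nonneg a1 Hu1'.le
      linarith

theorem no_k33 (a b : Fin 3 → U) (x : Fin 3 → Fin 3 → U) (g : U →ₗ[ℝ] ℝ) (π : U →ₗ[ℝ] ℂ)
    (o : U) (hπ : ∀ y, π y = 0 → g y = 0 → ∃ s : ℝ, y = s • o)
    (ga : ∀ i, 0 < g (a i)) (gb : ∀ i, 0 < g (b i)) (gx : ∀ i j, 0 < g (x i j))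
    (h1 h2 : Fin 3 → Fin 3 → (U →ₗ[ℝ] ℝ))
    (h1a : ∀ i j, h1 i j (a i) = 0) (h1x : ∀ i j, h1 i j (x i j) = 0)
    (h1a' : ∀ i j k, k ≠ i → 0 < h1 i j (a k)) (h1b' : ∀ i j l, l ≠ j → 0 < h1 i j (b l))
    (h1x' : ∀ i j k l, k ≠ i → l ≠ j → 0 < h1 i j (x k l))
    (h2b : ∀ i j, h2 i j (b j) = 0) (h2x : ∀ i j, h2 i j (x i j) = 0)
    (h2a' : ∀ i j k, k ≠ i → 0 < h2 i j (a k)) (h2b' : ∀ i j l, l ≠ j → 0 < h2 i j (b l))
    (h2x' : ∀ i j k l, k ≠ i → l ≠ j → 0 < h2 i j (x k l))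
    (h1o : ∀ i j, 0 ≤ h1 i j o) (h2o : ∀ i j, 0 ≤ h2 i j o) : False := by
  let m : Fin 6 → Fin 3 := fun i => ⟨i.1 % 3, Nat.mod_lt _ (by norm_num)⟩
  have hm : ∀ i j : Fin 6, (i.1 < 3 ∧ j.1 < 3 ∨ 3 ≤ i.1 ∧ 3 ≤ j.1) → i ≠ j → m i ≠ m j := by
    intro i j h hij he
    have h1 : i.1 % 3 = j.1 % 3 := congrArg Fin.val he
    apply hij
    apply Fin.ext
    have := i.2
    have := j.2
    omega
  let S : Fin 3 → Fin 3 → Set ℂ := fun i j =>
    segment ℝ (pt g π (a i)) (pt g π (x i j)) ∪ segment ℝ (pt g π (x i j)) (pt g π (b j))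
  have joined : ∀ u v : ℂ, JoinedIn (segment ℝ u v) u v := fun u v =>
    (convex_segment u v).isPathConnected ⟨_, left_mem_segment ℝ _ _⟩ |>.joinedIn _
      (left_mem_segment ℝ _ _) _ (right_mem_segment ℝ _ _)
  refine Pool.Agent.Helper479.Bond.VK.k33_joined
    (fun i => if i.1 < 3 then pt g π (a (m i)) else pt g π (b (m i)))
    (fun i j => S (m i) (m j)) ?_ ?_
  · intro i j hi hj
    simp only [hi, if_true, if_neg (not_lt.2 hj)]
    exact ((joined _ _).mono Set.subset_union_left).trans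
      ((joined _ _).mono Set.subset_union_right)
  · intro i j k l hi hj hk hl hik hjl
    have n1 : m i ≠ m k := hm i k (Or.inl ⟨hi, hk⟩) hik
    have n2 : m j ≠ m l := hm j l (Or.inr ⟨hj, hl⟩) hjl
    generalize m i = i' at *
    generalize m j = j' at *
    generalize m k = k' at *
    generalize m l = l' at *
    simp only [S, Set.disjoint_union_left, Set.disjoint_union_right]
    refine ⟨⟨?_, ?_⟩, ⟨?_, ?_⟩⟩
    · exact seg_disjoint hπ (ga _) (gx _ _) (ga _) (gx _ _) (H := h1 i' j') (H' := h1 k' l')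
        (h1a _ _) (h1x _ _) (h1a' _ _ _ n1.symm) (h1x' _ _ _ _ n1.symm n2.symm) (h1o _ _)
        (h1a _ _) (h1x _ _) (h1a' _ _ _ n1) (h1x' _ _ _ _ n1 n2) (h1o _ _)
    · exact seg_disjoint hπ (gx _ _) (gb _) (ga _) (gx _ _) (H := h2 i' j') (H' := h1 k' l')
        (h2x _ _) (h2b _ _) (h2a' _ _ _ n1.symm) (h2x' _ _ _ _ n1.symm n2.symm) (h2o _ _)
        (h1a _ _) (h1x _ _) (h1x' _ _ _ _ n1 n2) (h1b' _ _ _ n2) (h1o _ _)
    · exact seg_disjoint hπ (ga _) (gx _ _) (gx _ _) (gb _) (H := h1 i' j') (H' := h2 k' l')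
        (h1a _ _) (h1x _ _) (h1x' _ _ _ _ n1.symm n2.symm) (h1b' _ _ _ n2.symm) (h1o _ _)
        (h2x _ _) (h2b _ _) (h2a' _ _ _ n1) (h2x' _ _ _ _ n1 n2) (h2o _ _)
    · exact seg_disjoint hπ (gx _ _) (gb _) (gx _ _) (gb _) (H := h2 i' j') (H' := h2 k' l')
        (h2x _ _) (h2b _ _) (h2x' _ _ _ _ n1.symm n2.symm) (h2b' _ _ _ n2.symm) (h2o _ _)
        (h2x _ _) (h2b _ _) (h2x' _ _ _ _ n1 n2) (h2b' _ _ _ n2) (h2o _ _)

end Q139.Orn.K33
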