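import Mathlib
import Pool.Agent.Q139.Orn.Path

/-!
# A view point outside a cone of dimension at most four
-/

set_option autoImplicit false

namespace Q139.Orn

open Module

variable {U : Type*} [AddCommGroup U] [Module ℝ U] [FiniteDimensional ℝ U]

/-- a map to the plane that is injective on `ker g` modulo `o` -/
lemma exists_plane (g : U →ₗ[ℝ] ℝ) (o : U) (hg : g ≠ 0) (ho : g o = 0)
    (hd : finrank ℝ (U ⧸ Submodule.span ℝ {o}) ≤ 3) :
    ∃ π : U →ₗ[ℝ] ℂ, ∀ y, π y = 0 → g y = 0 → ∃ s : ℝ, y = s • o := by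
  set N := Submodule.span ℝ {o} with hN
  have hker : N ≤ LinearMap.ker g := by
    rw [hN, Submodule.span_le]
    simpa using ho
  let gb : (U ⧸ N) →ₗ[ℝ] ℝ := N.liftQ g hker
  have hgb : gb ≠ 0 := by
    intro h
    apply hg
    ext u
    have := congrArg (fun f : (U ⧸ N) →ₗ[ℝ] ℝ => f (N.mkQ u)) h
    simpa [gb] using this
  have hk : finrank ℝ (LinearMap.ker gb) ≤ finrank ℝ ℂ := by
    have h1 := gb.finrank_range_add_finrank_ker
    have h2 : LinearMap.range gb = ⊤ := LinearMap.range_eq_top.2 (LinearMap.surjective hgb)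
    rw [h2, finrank_top, finrank_self] at h1
    rw [Complex.finrank_real_complex]
    omega
  obtain ⟨j, hj⟩ := finrank_le_iff_exists_linearMap.1 hk
  obtain ⟨J, hJ⟩ := LinearMap.exists_extend j
  refine ⟨J.comp N.mkQ, fun y hy hgy => ?_⟩
  have hmem : N.mkQ y ∈ LinearMap.ker gb := by
    rw [LinearMap.mem_ker]
    simpa [gb] using hgy
  have h1 : j ⟨N.mkQ y, hmem⟩ = 0 := by
    have := congrArg (fun f : LinearMap.ker gb →ₗ[ℝ] ℂ => f ⟨N.mkQ y, hmem⟩) hJ
    simp only [LinearMap.comp_apply, Submodule.subtype_apply] at this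
    rw [← this]
    exact hy
  have h2 : (⟨N.mkQ y, hmem⟩ : LinearMap.ker gb) = 0 := hj (by rw [h1, map_zero])
  have h3 : N.mkQ y = 0 := congrArg Subtype.val h2
  rw [Submodule.mkQ_apply, Submodule.Quotient.mk_eq_zero, hN, Submodule.mem_span_singleton] at h3
  obtain ⟨s, hs⟩ := h3
  exact ⟨s, hs.symm⟩

/-- existence of a nonnegative functional vanishing on a three-dimensional part -/
lemma exists_facet (hd : finrank ℝ U = 4) (Y : Finset U)
    (hspan : Submodule.span ℝ (Y : Set U) = ⊤) (c : U →ₗ[ℝ] ℝ) (hc : ∀ y ∈ Y, 0 < c y) :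
    ∃ k : U →ₗ[ℝ] ℝ, k ≠ 0 ∧ (∀ y ∈ Y, 0 ≤ k y) ∧
      3 ≤ finrank ℝ (Submodule.span ℝ {y : U | y ∈ Y ∧ k y = 0}) := by
  classical
  have hfun : ∀ l : U →ₗ[ℝ] ℝ, l ≠ 0 → ∃ y ∈ Y, l y ≠ 0 := by
    intro l hl
    by_contra hcon
    push Not at hcon
    apply hl
    have : Submodule.span ℝ (Y : Set U) ≤ LinearMap.ker l := by
      rw [Submodule.span_le]
      intro y hy
      exact hcon y hy
    rw [hspan] at this
    ext u
    exact this (Submodule.mem_top)
  have main : ∀ r : ℕ, r ≤ 3 → ∃ k : U →ₗ[ℝ] ℝ, k ≠ 0 ∧ (∀ y ∈ Y, 0 ≤ k y) ∧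
      r ≤ finrank ℝ (Submodule.span ℝ {y : U | y ∈ Y ∧ k y = 0}) := by
    intro r
    induction r with
    | zero =>
      intro _
      refine ⟨c, ?_, fun y hy => (hc y hy).le, Nat.zero_le _⟩
      rintro rfl
      have hY : Y.Nonempty := by
        by_contra hne
        rw [Finset.not_nonempty_iff_eq_empty] at hne
        rw [hne, Finset.coe_empty, Submodule.span_empty] at hspan
        have h1 : finrank ℝ (⊥ : Submodule ℝ U) = finrank ℝ (⊤ : Submodule ℝ U) := by rw [hspan]
        rw [finrank_bot, finrank_top, hd] at h1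
        omega
      obtain ⟨y, hy⟩ := hY
      have := hc y hy
      simp at this
    | succ r ih =>
      intro hr
      obtain ⟨k, hk0, hk, hkr⟩ := ih (by omega)
      set Z := Submodule.span ℝ {y : U | y ∈ Y ∧ k y = 0} with hZ
      by_cases hge : r + 1 ≤ finrank ℝ Z
      · exact ⟨k, hk0, hk, hge⟩
      have hann := Subspace.finrank_add_finrank_dualAnnihilator_eq Z
      have hex : ∃ l ∈ Z.dualAnnihilator, l ∉ Submodule.span ℝ {k} := by
        by_contra hcon
        push Not at hcon
        have h1 : Z.dualAnnihilator ≤ Submodule.span ℝ {k} := hcon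
        have h2 : finrank ℝ Z.dualAnnihilator ≤ 1 :=
          (Submodule.finrank_mono h1).trans (finrank_span_singleton hk0).le
        omega
      -- choose the sign
      have hex' : ∃ l ∈ Z.dualAnnihilator, l ∉ Submodule.span ℝ {k} ∧ ∃ y ∈ Y, 0 < l y := by
        obtain ⟨l, hl, hlk⟩ := hex
        have hl0 : l ≠ 0 := by
          rintro rfl
          exact hlk (Submodule.zero_mem _)
        obtain ⟨y, hy, hly⟩ := hfun l hl0
        rcases lt_or_gt_of_ne hly with h | h
        · refine ⟨-l, Submodule.neg_mem _ hl, ?_, y, hy, by simpa using h⟩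
          intro hm
          apply hlk
          have := Submodule.neg_mem _ hm
          simpa using this
        · exact ⟨l, hl, hlk, y, hy, h⟩
      obtain ⟨l, hl, hlk, y0, hy0, hly0⟩ := hex'
      rw [Submodule.mem_dualAnnihilator] at hl
      obtain ⟨y1, hy1, hmin⟩ := Finset.exists_min_image (Y.filter (fun y => 0 < l y))
        (fun y => k y / l y) ⟨y0, Finset.mem_filter.2 ⟨hy0, hly0⟩⟩
      have hy1' := Finset.mem_filter.1 hy1
      set t := k y1 / l y1 with ht
      have ht0 : 0 ≤ t := div_nonneg (hk y1 hy1'.1) hy1'.2.le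
      have hnn : ∀ y ∈ Y, 0 ≤ (k - t • l) y := by
        intro y hy
        simp only [LinearMap.sub_apply, LinearMap.smul_apply, smul_eq_mul]
        by_cases hly : 0 < l y
        · have := hmin y (Finset.mem_filter.2 ⟨hy, hly⟩)
          have h2 : t * l y ≤ k y := by
            rwa [le_div_iff₀ hly] at this
          linarith
        · push Not at hly
          have := hk y hy
          nlinarith
      have h0 : (k - t • l) y1 = 0 := by
        simp only [LinearMap.sub_apply, LinearMap.smul_apply, smul_eq_mul]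
        rw [ht, div_mul_cancel₀ _ hy1'.2.ne']
        ring
      refine ⟨k - t • l, ?_, hnn, ?_⟩
      · intro hzero
        have hkt : k = t • l := sub_eq_zero.1 hzero
        by_cases ht' : t = 0
        · rw [ht', zero_smul] at hkt
          exact hk0 hkt
        · apply hlk
          rw [Submodule.mem_span_singleton]
          exact ⟨t⁻¹, by rw [hkt, smul_smul, inv_mul_cancel₀ ht', one_smul]⟩
      · have hlt : Z < Submodule.span ℝ {y : U | y ∈ Y ∧ (k - t • l) y = 0} := by
          rw [SetLike.lt_iff_le_and_exists]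
          refine ⟨?_, y1, Submodule.subset_span ⟨hy1'.1, h0⟩, ?_⟩
          · rw [hZ, Submodule.span_le]
            rintro y ⟨hy, hky⟩
            apply Submodule.subset_span
            refine ⟨hy, ?_⟩
            have : l y = 0 := hl y (Submodule.subset_span ⟨hy, hky⟩)
            simp [hky, this]
          · intro hm
            have := hl y1 hm
            linarith [hy1'.2]
        have := Submodule.finrank_lt_finrank_of_lt hlt
        omega
  exact main 3 le_rfl

/-- **The view point.** -/
theorem exists_view (hd : finrank ℝ U ≤ 4) (Y : Finset U) (hY : Y.Nonempty)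
    (hspan : Submodule.span ℝ (Y : Set U) = ⊤) (c : U →ₗ[ℝ] ℝ) (hc : ∀ y ∈ Y, 0 < c y)
    {ι : Type*} [Fintype ι] (H : ι → U →ₗ[ℝ] ℝ) (hH : ∀ i, ∀ y ∈ Y, 0 ≤ H i y)
    (hH2 : ∀ i, finrank ℝ (Submodule.span ℝ {y : U | y ∈ Y ∧ H i y = 0}) ≤ 2) :
    ∃ (g : U →ₗ[ℝ] ℝ) (π : U →ₗ[ℝ] ℂ) (o : U), (∀ y ∈ Y, 0 < g y) ∧
      (∀ y, π y = 0 → g y = 0 → ∃ s : ℝ, y = s • o) ∧ ∀ i, 0 ≤ H i o := by
  classical
  obtain ⟨y0, hy0⟩ := hY
  have hc0 : c ≠ 0 := by
    rintro rfl
    have := hc y0 hy0
    simp at this
  rcases Nat.lt_or_ge (finrank ℝ U) 4 with h3 | h4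
  · have hq : finrank ℝ (U ⧸ Submodule.span ℝ {(0 : U)}) ≤ 3 :=
      (Submodule.finrank_quotient_le _).trans (by omega)
    obtain ⟨π, hπ⟩ := exists_plane c 0 hc0 (map_zero c) hq
    exact ⟨c, π, 0, hc, hπ, fun i => by simp⟩
  · have hd4 : finrank ℝ U = 4 := le_antisymm hd h4
    obtain ⟨k, hk0, hk, hk3⟩ := exists_facet hd4 Y hspan c hc
    set Z : Finset U := Y.filter (fun y => k y = 0) with hZ
    have hZset : {y : U | y ∈ Y ∧ k y = 0} = (Z : Set U) := by
      ext y
      simp [hZ]
    set o1 : U := ∑ y ∈ Z, y with ho1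
    have hZY : ∀ y ∈ Z, y ∈ Y := fun y hy => (Finset.mem_filter.1 hy).1
    have hko1 : k o1 = 0 := by
      rw [ho1, map_sum]
      exact Finset.sum_eq_zero fun y hy => (Finset.mem_filter.1 hy).2
    have hHo1 : ∀ i, 0 < H i o1 := by
      intro i
      rw [ho1, map_sum]
      apply Finset.sum_pos' (fun y hy => hH i y (hZY y hy))
      by_contra hcon
      push Not at hcon
      have hsub : Submodule.span ℝ {y : U | y ∈ Y ∧ k y = 0} ≤
          Submodule.span ℝ {y : U | y ∈ Y ∧ H i y = 0} := by
        apply Submodule.span_mono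
        rintro y ⟨hy, hky⟩
        exact ⟨hy, le_antisymm (hcon y (Finset.mem_filter.2 ⟨hy, hky⟩)) (hH i y hy)⟩
      have := Submodule.finrank_mono hsub
      have := hH2 i
      omega
    have hco1 : 0 < c o1 := by
      rw [ho1, map_sum]
      apply Finset.sum_pos (fun y hy => hc y (hZY y hy))
      by_contra hne
      rw [Finset.not_nonempty_iff_eq_empty] at hne
      rw [hZset, hne, Finset.coe_empty, Submodule.span_empty, finrank_bot] at hk3
      omega
    have hex : ∃ y1 ∈ Y, 0 < k y1 := by
      by_contra hcon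
      push Not at hcon
      apply hk0
      have : Submodule.span ℝ (Y : Set U) ≤ LinearMap.ker k := by
        rw [Submodule.span_le]
        intro y hy
        exact le_antisymm (hcon y hy) (hk y hy)
      rw [hspan] at this
      ext u
      exact this Submodule.mem_top
    obtain ⟨y1, hy1, hky1⟩ := hex
    obtain ⟨M, hM0, hM⟩ := exists_bound (Finset.univ : Finset ι) (fun i => H i y1 / H i o1)
    obtain ⟨M', hM0', hM'⟩ := exists_bound (Finset.univ : Finset Unit) (fun _ => c y1 / c o1)
    have hM'' := hM' () (Finset.mem_univ _)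
    rw [div_lt_iff₀ hco1] at hM''
    set o : U := (M + M') • o1 - y1 with ho
    have hHo : ∀ i, 0 ≤ H i o := by
      intro i
      have h1 := hM i (Finset.mem_univ _)
      rw [div_lt_iff₀ (hHo1 i)] at h1
      rw [ho, map_sub, map_smul, smul_eq_mul]
      have := mul_pos hM0' (hHo1 i)
      linarith
    have hco : 0 < c o := by
      rw [ho, map_sub, map_smul, smul_eq_mul]
      have := mul_pos hM0 hco1
      linarith
    have hko : k o < 0 := by
      rw [ho, map_sub, map_smul, hko1, smul_zero]
      linarith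
    set s := -(k o) / c o with hs
    have hs0 : 0 < s := div_pos (by linarith) hco
    have hgo : (k + s • c) o = 0 := by
      simp only [LinearMap.add_apply, LinearMap.smul_apply, smul_eq_mul]
      rw [hs, div_mul_cancel₀ _ hco.ne']
      ring
    have hgpos : ∀ y ∈ Y, 0 < (k + s • c) y := by
      intro y hy
      simp only [LinearMap.add_apply, LinearMap.smul_apply, smul_eq_mul]
      have := mul_pos hs0 (hc y hy)
      linarith [hk y hy]
    have hg0 : k + s • c ≠ 0 := by
      intro h
      have := hgpos y0 hy0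
      rw [h] at this
      simp at this
    have ho0 : o ≠ 0 := by
      intro h
      rw [h, map_zero] at hco
      exact lt_irrefl _ hco
    have hq : finrank ℝ (U ⧸ Submodule.span ℝ {o}) ≤ 3 := by
      have h1 := Submodule.finrank_quotient_add_finrank (Submodule.span ℝ {o})
      rw [finrank_span_singleton ho0] at h1
      omega
    obtain ⟨π, hπ⟩ := exists_plane (k + s • c) o hg0 hgo hq
    exact ⟨k + s • c, π, o, hgpos, hπ, hHo⟩

end Q139.Orn
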