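import Mathlib
import Pool.Agent.Q139.Orn.DimB
import Pool.Agent.Q139.Orn.View
import Pool.Agent.Q139.Orn.K33

/-!
# The forbidden configuration
-/

set_option autoImplicit false

namespace Q139.Orn

open Relation Module

variable {E : Type*} [AddCommGroup E] [Module ℝ E] [FiniteDimensional ℝ E] [DecidableEq E]

omit [FiniteDimensional ℝ E] in
lemma rtg_lt {W : Finset E} {c : E →ₗ[ℝ] ℝ} {u w : E} (h : ReflTransGen (Arrow W c) u w) :
    u = w ∨ c u < c w := by
  induction h with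
  | refl => exact Or.inl rfl
  | tail _ h ih =>
    rcases ih with rfl | ih
    · exact Or.inr h.2.2
    · exact Or.inr (ih.trans h.2.2)

omit [FiniteDimensional ℝ E] [DecidableEq E] in
lemma finrank_span_pair (u v : E) : finrank ℝ (Submodule.span ℝ (Set.range ![u, v])) ≤ 2 := by
  have h := finrank_range_le_card (R := ℝ) ![u, v]
  unfold Set.finrank at h
  simpa using h

/-- the functional exposing a face at `z, p, x` -/
lemma star_functional {W : Finset E} (hexp : ∀ w ∈ W, Face W {w})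
    {c : E →ₗ[ℝ] ℝ} (hc : ∀ u w, u ≠ w → Face W {u, w} → c u ≠ c w) {x z p q : E}
    (hx : x ∈ W) (hz : z ∈ W) (hzp : z ≠ p) (hzq : z ≠ q) (hpq : p ≠ q)
    (hbelow : ∀ w ∈ W, ReflTransGen (Arrow W c) w x → w = z ∨ w = p ∨ w = q ∨ w = x)
    (hxp : Face W {x, p}) (hxq : Face W {x, q}) (hcp : c p < c x) (hcq : c q < c x)
    (hcz : c z < c x) (hnot : ¬ Face W {p, q}) :
    ∃ f : E →ₗ[ℝ] ℝ, (∀ w ∈ W, f z ≤ f w) ∧ f p = f z ∧ f x = f z ∧
      (∀ w ∈ W, w ≠ z → w ≠ p → w ≠ q → w ≠ x → f z < f w) ∧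
      finrank ℝ (Submodule.span ℝ {u : E | ∃ w ∈ W, u = w - z ∧ f w = f z}) ≤ 2 := by
  classical
  obtain ⟨S, hS, hzS, hpS, hxS, hin⟩ := star_face hexp hc hx hz hzp hzq hpq hbelow hxp hxq hcp
    hcq hcz hnot
  have hpx : p ≠ x := by rintro rfl; exact lt_irrefl _ hcp
  have hqx : q ≠ x := by rintro rfl; exact lt_irrefl _ hcq
  obtain ⟨hSW, f, r, hf0, hf1⟩ := id hS
  have hfz := hf0 z hzS
  have hfw : ∀ w ∈ W, f w = f z → w ∈ S := by
    intro w hw h
    by_contra hwS
    have := hf1 w hw hwS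
    linarith
  refine ⟨f, ?_, by rw [hfz, hf0 p hpS], by rw [hfz, hf0 x hxS], ?_, ?_⟩
  · intro w hw
    by_cases hwS : w ∈ S
    · rw [hfz, hf0 w hwS]
    · rw [hfz]
      exact (hf1 w hw hwS).le
  · intro w hw h1 h2 h3 h4
    rw [hfz]
    apply hf1 w hw
    intro hwS
    rcases hin w hwS with h | h | h | h <;> contradiction
  · by_cases hqS : q ∈ S
    · obtain ⟨l, hl0, hl⟩ := flat hpx hqx hzp hzq hS hpS hqS hin hnot
      have hsub : Submodule.span ℝ {u : E | ∃ w ∈ W, u = w - z ∧ f w = f z} ≤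
          Submodule.span ℝ (Set.range ![p - z, q - z, x - z]) := by
        rw [Submodule.span_le]
        rintro u ⟨w, hw, rfl, hfe⟩
        rcases hin w (hfw w hw hfe) with rfl | rfl | rfl | rfl
        · simp
        · exact Submodule.subset_span ⟨0, rfl⟩
        · exact Submodule.subset_span ⟨1, rfl⟩
        · exact Submodule.subset_span ⟨2, rfl⟩
      refine (Submodule.finrank_mono hsub).trans ?_
      have hle := finrank_range_le_card (R := ℝ) ![p - z, q - z, x - z]
      rw [Fintype.card_fin] at hle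
      have hne : Set.finrank ℝ (Set.range ![p - z, q - z, x - z]) ≠ 3 := by
        intro h3
        have hli : LinearIndependent ℝ ![p - z, q - z, x - z] := by
          rw [linearIndependent_iff_card_eq_finrank_span, Fintype.card_fin]
          exact h3.symm
        apply hl0
        funext i
        exact Fintype.linearIndependent_iff.1 hli l (by
          rw [Fin.sum_univ_three]
          simpa using hl) i
      unfold Set.finrank at hle hne
      omega
    · have hsub : Submodule.span ℝ {u : E | ∃ w ∈ W, u = w - z ∧ f w = f z} ≤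
          Submodule.span ℝ (Set.range ![p - z, x - z]) := by
        rw [Submodule.span_le]
        rintro u ⟨w, hw, rfl, hfe⟩
        have hwS := hfw w hw hfe
        rcases hin w hwS with rfl | rfl | rfl | rfl
        · simp
        · exact Submodule.subset_span ⟨0, rfl⟩
        · exact absurd hwS hqS
        · exact Submodule.subset_span ⟨1, rfl⟩
      exact (Submodule.finrank_mono hsub).trans (finrank_span_pair _ _)

omit [FiniteDimensional ℝ E] [DecidableEq E] in
lemma spanAt_le_spanAt {W : Finset E} {v z : E} (hz : z ∈ W) : spanAt W z ≤ spanAt W v := by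
  rw [spanAt, Submodule.span_le]
  rintro _ ⟨w, hw, rfl⟩
  have h1 : w - v ∈ spanAt W v := Submodule.subset_span ⟨w, hw, rfl⟩
  have h2 : z - v ∈ spanAt W v := Submodule.subset_span ⟨z, hz, rfl⟩
  have := Submodule.sub_mem _ h1 h2
  simpa using this

/-- **The forbidden configuration.** -/
theorem no_config {W : Finset E} (hexp : ∀ w ∈ W, Face W {w})
    {c : E →ₗ[ℝ] ℝ} (hc : ∀ u w, u ≠ w → Face W {u, w} → c u ≠ c w)
    {L : Type*} [PartialOrder L] (φ : L → E) (hφ : Function.Injective φ)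
    (hW : ∀ w, w ∈ W ↔ ∃ o, φ o = w)
    (hle : ∀ o o' : L, o ≤ o' ↔ ReflTransGen (Arrow W c) (φ o) (φ o'))
    (z t A B : L) (a b : Fin 3 → L) (x : Fin 3 → Fin 3 → L)
    (hz : ∀ o, z ≤ o)
    (hbelow : ∀ i j o, o ≤ x i j → o = z ∨ o = a i ∨ o = b j ∨ o = x i j)
    (hax : ∀ i j, a i ≤ x i j) (hbx : ∀ i j, b j ≤ x i j)
    (hab : ∀ i j, ¬ a i ≤ b j) (hba : ∀ i j, ¬ b j ≤ a i)
    (ha : Function.Injective a) (hb : Function.Injective b)
    (hxx : ∀ i j k l, k ≠ i → x k l ≠ x i j)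
    (hza : ∀ i, z ≠ a i) (hzb : ∀ i, z ≠ b i) (hzx : ∀ i j, z ≠ x i j)
    (hxa : ∀ i j k, x i j ≠ a k) (hxb : ∀ i j k, x i j ≠ b k)
    (habove : ∀ o, x 0 0 ≤ o → o = t ∨ o = A ∨ o = B ∨ o = x 0 0)
    (hA : x 0 0 ≤ A) (hB : x 0 0 ≤ B) (hAt : A ≤ t) (hBt : B ≤ t) (hAB : ¬ A ≤ B)
    (hBA : ¬ B ≤ A) (hxA : x 0 0 ≠ A) (hxB : x 0 0 ≠ B) : False := by
  classical
  have hmem : ∀ o, φ o ∈ W := fun o => (hW _).2 ⟨o, rfl⟩
  -- comparability and the functional
  have hlt : ∀ o o' : L, o ≤ o' → o ≠ o' → c (φ o) < c (φ o') := by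
    intro o o' h hne
    rcases rtg_lt ((hle o o').1 h) with h | h
    · exact absurd (hφ h) hne
    · exact h
  -- covers are edges
  have hcov : ∀ o o' : L, o ≤ o' → o ≠ o' → (∀ m, o ≤ m → m ≤ o' → m = o ∨ m = o') →
      Face W {φ o', φ o} := by
    intro o o' h hne hbet
    have h1 := (hle o o').1 h
    rcases ReflTransGen.cases_tail h1 with h2 | ⟨w, h2, h3⟩
    · exact absurd (hφ h2.symm) hne
    · obtain ⟨m, rfl⟩ := (hW w).1 (h3.2.1.subset (by simp))
      have h4 : o ≤ m := (hle _ _).2 h2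
      have h5 : m ≤ o' := (hle _ _).2 (ReflTransGen.single h3)
      rcases hbet m h4 h5 with h6 | h6
      · rw [h6] at h3
        rw [Finset.pair_comm]
        exact h3.2.1
      · exact absurd (congrArg φ h6) h3.1
  -- incomparable elements are not adjacent
  have hnot : ∀ o o' : L, ¬ o ≤ o' → ¬ o' ≤ o → ¬ Face W {φ o, φ o'} := by
    intro o o' h1 h2 hF
    have hne : φ o ≠ φ o' := by
      intro h
      exact h1 (hφ h).le
    rcases lt_or_gt_of_ne (hc _ _ hne hF) with h | h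
    · exact h1 ((hle _ _).2 (ReflTransGen.single ⟨hne, hF, h⟩))
    · exact h2 ((hle _ _).2 (ReflTransGen.single
        ⟨hne.symm, by rw [Finset.pair_comm]; exact hF, h⟩))
  have hbelow' : ∀ i j, ∀ w ∈ W, ReflTransGen (Arrow W c) w (φ (x i j)) →
      w = φ z ∨ w = φ (a i) ∨ w = φ (b j) ∨ w = φ (x i j) := by
    intro i j w hw h
    obtain ⟨m, rfl⟩ := (hW w).1 hw
    rcases hbelow i j m ((hle _ _).2 h) with h | h | h | h
    · exact Or.inl (congrArg φ h)
    · exact Or.inr (Or.inl (congrArg φ h))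
    · exact Or.inr (Or.inr (Or.inl (congrArg φ h)))
    · exact Or.inr (Or.inr (Or.inr (congrArg φ h)))
  have hxaF : ∀ i j, Face W {φ (x i j), φ (a i)} := by
    intro i j
    apply hcov _ _ (hax i j) (hxa i j i).symm
    intro m h1 h2
    rcases hbelow i j m h2 with h | h | h | h
    · rw [h] at h1
      exact absurd (le_antisymm (hz _) h1) (hza i)
    · exact Or.inl h
    · rw [h] at h1
      exact absurd h1 (hab i j)
    · exact Or.inr h
  have hxbF : ∀ i j, Face W {φ (x i j), φ (b j)} := by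
    intro i j
    apply hcov _ _ (hbx i j) (hxb i j j).symm
    intro m h1 h2
    rcases hbelow i j m h2 with h | h | h | h
    · rw [h] at h1
      exact absurd (le_antisymm (hz _) h1) (hzb j)
    · rw [h] at h1
      exact absurd h1 (hba i j)
    · exact Or.inl h
    · exact Or.inr h
  have hca : ∀ i j, c (φ (a i)) < c (φ (x i j)) := fun i j => hlt _ _ (hax i j) (hxa i j i).symm
  have hcb : ∀ i j, c (φ (b j)) < c (φ (x i j)) := fun i j => hlt _ _ (hbx i j) (hxb i j j).symm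
  have hcz : ∀ o, z ≠ o → c (φ z) < c (φ o) := fun o ho => hlt _ _ (hz o) ho
  have hne : ∀ o o' : L, o ≠ o' → φ o ≠ φ o' := fun o o' h h' => h (hφ h')
  have hanb : ∀ i j, a i ≠ b j := fun i j h => hab i j h.le
  -- the dimension
  have hdim : finrank ℝ (spanAt W (φ z)) ≤ 4 := by
    have htA : t ≠ A := by
      rintro rfl
      exact hBA hBt
    have htB : t ≠ B := by
      rintro rfl
      exact hAB hAt
    have hxt : x 0 0 ≠ t := by
      intro h
      rw [← h] at hAt
      exact hxA (le_antisymm hA hAt)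
    have hAF : Face W {φ (x 0 0), φ A} := by
      rw [Finset.pair_comm]
      apply hcov _ _ hA hxA
      intro m h1 h2
      rcases habove m h1 with h | h | h | h
      · rw [h] at h2
        exact absurd (le_antisymm h2 hAt) htA
      · exact Or.inr h
      · rw [h] at h2
        exact absurd h2 hBA
      · exact Or.inl h
    have hBF : Face W {φ (x 0 0), φ B} := by
      rw [Finset.pair_comm]
      apply hcov _ _ hB hxB
      intro m h1 h2
      rcases habove m h1 with h | h | h | h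
      · rw [h] at h2
        exact absurd (le_antisymm h2 hBt) htB
      · rw [h] at h2
        exact absurd h2 hAB
      · exact Or.inr h
      · exact Or.inl h
    refine (Submodule.finrank_mono (spanAt_le_spanAt (v := φ (x 0 0)) (hmem z))).trans ?_
    refine finrank_le_four hexp hc (v := φ (x 0 0)) (z := φ z) (p := φ (a 0)) (q := φ (b 0))
      (t := φ t) (A := φ A) (B := φ B) (hmem _) (hmem _) (hmem _) (hbelow' 0 0) ?_
      (hxaF 0 0) (hxbF 0 0) hAF hBF (hcz _ (hzx 0 0)) (hca 0 0) (hcb 0 0)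
      (hlt _ _ (hA.trans hAt) hxt) (hlt _ _ hA hxA) (hlt _ _ hB hxB) (hne _ _ (hza 0))
      (hne _ _ (hzb 0)) (hne _ _ (hanb 0 0)) (hne _ _ htA) (hne _ _ htB)
      (hne _ _ (fun h => hAB h.le)) (hnot _ _ (hab 0 0) (hba 0 0)) (hnot _ _ hAB hBA)
    intro w hw h
    obtain ⟨m, rfl⟩ := (hW w).1 hw
    rcases habove m ((hle _ _).2 h) with h | h | h | h
    · exact Or.inl (congrArg φ h)
    · exact Or.inr (Or.inl (congrArg φ h))
    · exact Or.inr (Or.inr (Or.inl (congrArg φ h)))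
    · exact Or.inr (Or.inr (Or.inr (congrArg φ h)))
  -- the functionals
  have F1 : ∀ i j, ∃ f : E →ₗ[ℝ] ℝ, (∀ w ∈ W, f (φ z) ≤ f w) ∧ f (φ (a i)) = f (φ z) ∧
      f (φ (x i j)) = f (φ z) ∧ (∀ w ∈ W, w ≠ φ z → w ≠ φ (a i) → w ≠ φ (b j) →
        w ≠ φ (x i j) → f (φ z) < f w) ∧
      finrank ℝ (Submodule.span ℝ {u : E | ∃ w ∈ W, u = w - φ z ∧ f w = f (φ z)}) ≤ 2 :=
    fun i j => star_functional hexp hc (hmem _) (hmem _) (hne _ _ (hza i)) (hne _ _ (hzb j))
      (hne _ _ (hanb i j)) (hbelow' i j) (hxaF i j) (hxbF i j) (hca i j) (hcb i j)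
      (hcz _ (hzx i j)) (hnot _ _ (hab i j) (hba i j))
  have F2 : ∀ i j, ∃ f : E →ₗ[ℝ] ℝ, (∀ w ∈ W, f (φ z) ≤ f w) ∧ f (φ (b j)) = f (φ z) ∧
      f (φ (x i j)) = f (φ z) ∧ (∀ w ∈ W, w ≠ φ z → w ≠ φ (b j) → w ≠ φ (a i) →
        w ≠ φ (x i j) → f (φ z) < f w) ∧
      finrank ℝ (Submodule.span ℝ {u : E | ∃ w ∈ W, u = w - φ z ∧ f w = f (φ z)}) ≤ 2 :=
    fun i j => star_functional hexp hc (hmem _) (hmem _) (hne _ _ (hzb j)) (hne _ _ (hza i))
      (hne _ _ (hanb i j)).symm (fun w hw h => by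
        rcases hbelow' i j w hw h with h | h | h | h
        · exact Or.inl h
        · exact Or.inr (Or.inr (Or.inl h))
        · exact Or.inr (Or.inl h)
        · exact Or.inr (Or.inr (Or.inr h))) (hxbF i j) (hxaF i j) (hcb i j) (hca i j)
      (hcz _ (hzx i j)) (hnot _ _ (hba i j) (hab i j))
  choose f1 f1le f1a f1x f1pos f1dim using F1
  choose f2 f2le f2b f2x f2pos f2dim using F2
  -- the vectors
  set U := spanAt W (φ z) with hU
  let vecW : W → U := fun w => ⟨w.1 - φ z, Submodule.subset_span ⟨w.1, w.2, rfl⟩⟩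
  let vec : L → U := fun o => vecW ⟨φ o, hmem o⟩
  have hvec : ∀ o, (vec o : E) = φ o - φ z := fun o => rfl
  let Y : Finset U := (W.attach.image vecW).erase 0
  have hYmem : ∀ y ∈ Y, ∃ w ∈ W, w ≠ φ z ∧ (y : E) = w - φ z := by
    intro y hy
    obtain ⟨hy0, hy1⟩ := Finset.mem_erase.1 hy
    obtain ⟨w, -, rfl⟩ := Finset.mem_image.1 hy1
    refine ⟨w.1, w.2, ?_, rfl⟩
    intro h
    apply hy0
    apply Subtype.ext
    show w.1 - φ z = 0
    rw [h, sub_self]
  have hvY : ∀ o, z ≠ o → vec o ∈ Y := by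
    intro o ho
    refine Finset.mem_erase.2 ⟨?_, Finset.mem_image.2 ⟨⟨φ o, hmem o⟩, Finset.mem_attach _ _, rfl⟩⟩
    intro h
    have := congrArg Subtype.val h
    rw [hvec] at this
    exact hne _ _ ho (sub_eq_zero.1 this).symm
  have hspan : Submodule.span ℝ (Y : Set U) = ⊤ := by
    have h : spanAt W (φ z) ≤ (Submodule.span ℝ (Y : Set U)).map U.subtype := by
      conv_lhs => rw [spanAt]
      rw [Submodule.span_le]
      rintro _ ⟨w, hw, rfl⟩
      by_cases hwz : w = φ z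
      · simp [hwz]
      · obtain ⟨m, rfl⟩ := (hW w).1 hw
        exact ⟨vec m, Submodule.subset_span (hvY m (fun h => hwz (congrArg φ h).symm)), rfl⟩
    rw [eq_top_iff]
    intro u _
    obtain ⟨u', hu', he⟩ := h u.2
    have : u' = u := Subtype.ext he
    rw [← this]
    exact hu'
  have hcpos : ∀ y ∈ Y, 0 < (c.comp U.subtype) y := by
    intro y hy
    obtain ⟨w, hw, hwz, he⟩ := hYmem y hy
    obtain ⟨m, rfl⟩ := (hW w).1 hw
    show 0 < c (y : E)
    rw [he, map_sub]
    linarith [hcz m (fun h => hwz (congrArg φ h).symm)]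
  let H : Bool × Fin 3 × Fin 3 → U →ₗ[ℝ] ℝ := fun i =>
    if i.1 then (f1 i.2.1 i.2.2).comp U.subtype else (f2 i.2.1 i.2.2).comp U.subtype
  have hHgen : ∀ f : E →ₗ[ℝ] ℝ, (∀ w ∈ W, f (φ z) ≤ f w) →
      finrank ℝ (Submodule.span ℝ {u : E | ∃ w ∈ W, u = w - φ z ∧ f w = f (φ z)}) ≤ 2 →
      (∀ y ∈ Y, 0 ≤ (f.comp U.subtype) y) ∧
      finrank ℝ (Submodule.span ℝ {y : U | y ∈ Y ∧ (f.comp U.subtype) y = 0}) ≤ 2 := by
    intro f hf hfd
    constructor
    · intro y hy
      obtain ⟨w, hw, hwz, he⟩ := hYmem y hy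
      show 0 ≤ f (y : E)
      rw [he, map_sub]
      linarith [hf w hw]
    · rw [← Submodule.finrank_map_subtype_eq, Submodule.map_span]
      refine (Submodule.finrank_mono (Submodule.span_mono ?_)).trans hfd
      rintro _ ⟨y, ⟨hy, hfy⟩, rfl⟩
      obtain ⟨w, hw, hwz, he⟩ := hYmem y hy
      refine ⟨w, hw, he, ?_⟩
      have h1 : f (y : E) = 0 := hfy
      rw [he, map_sub] at h1
      linarith
  obtain ⟨g, π, o, hg, hπ, hHo⟩ := exists_view (U := U) hdim Y ⟨vec (a 0), hvY _ (hza 0)⟩ hspan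
    (c.comp U.subtype) hcpos H
    (by
      rintro ⟨i, j, k⟩
      cases i
      · exact (hHgen _ (f2le j k) (f2dim j k)).1
      · exact (hHgen _ (f1le j k) (f1dim j k)).1)
    (by
      rintro ⟨i, j, k⟩
      cases i
      · exact (hHgen _ (f2le j k) (f2dim j k)).2
      · exact (hHgen _ (f1le j k) (f1dim j k)).2)
  have hval : ∀ (f : E →ₗ[ℝ] ℝ) (m : L), (f.comp U.subtype) (vec m) = f (φ m) - f (φ z) := by
    intro f m
    show f (vec m : E) = _
    rw [hvec, map_sub]
  refine K33.no_k33 (fun i => vec (a i)) (fun i => vec (b i)) (fun i j => vec (x i j)) g π o hπ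
    (fun i => hg _ (hvY _ (hza i))) (fun i => hg _ (hvY _ (hzb i)))
    (fun i j => hg _ (hvY _ (hzx i j)))
    (fun i j => (f1 i j).comp U.subtype) (fun i j => (f2 i j).comp U.subtype)
    ?_ ?_ ?_ ?_ ?_ ?_ ?_ ?_ ?_ ?_ ?_ ?_
  · intro i j
    rw [hval, f1a, sub_self]
  · intro i j
    rw [hval, f1x, sub_self]
  · intro i j k hk
    rw [hval]
    linarith [f1pos i j (φ (a k)) (hmem _) (hne _ _ (hza k)).symm (hne _ _ (fun h => hk (ha h)))
      (hne _ _ (hanb k j)) (hne _ _ (hxa i j k).symm)]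
  · intro i j l hl
    rw [hval]
    linarith [f1pos i j (φ (b l)) (hmem _) (hne _ _ (hzb l)).symm (hne _ _ (hanb i l).symm)
      (hne _ _ (fun h => hl (hb h))) (hne _ _ (hxb i j l).symm)]
  · intro i j k l hk _
    rw [hval]
    linarith [f1pos i j (φ (x k l)) (hmem _) (hne _ _ (hzx k l)).symm (hne _ _ (hxa k l i))
      (hne _ _ (hxb k l j)) (hne _ _ (hxx i j k l hk))]
  · intro i j
    rw [hval, f2b, sub_self]
  · intro i j
    rw [hval, f2x, sub_self]
  · intro i j k hk
    rw [hval]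
    linarith [f2pos i j (φ (a k)) (hmem _) (hne _ _ (hza k)).symm (hne _ _ (hanb k j))
      (hne _ _ (fun h => hk (ha h))) (hne _ _ (hxa i j k).symm)]
  · intro i j l hl
    rw [hval]
    linarith [f2pos i j (φ (b l)) (hmem _) (hne _ _ (hzb l)).symm (hne _ _ (fun h => hl (hb h)))
      (hne _ _ (hanb i l).symm) (hne _ _ (hxb i j l).symm)]
  · intro i j k l hk _
    rw [hval]
    linarith [f2pos i j (φ (x k l)) (hmem _) (hne _ _ (hzx k l)).symm (hne _ _ (hxb k l j))
      (hne _ _ (hxa k l i)) (hne _ _ (hxx i j k l hk))]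
  · intro i j
    exact hHo (true, i, j)
  · intro i j
    exact hHo (false, i, j)

end Q139.Orn
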