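import Mathlib

/-!
# Ornamentations of directed graphs and oriented graphs of polytopes: definitions
-/

set_option autoImplicit false

namespace Q139.Orn

/-- `U` is an ornament of the directed graph `D` at the vertex `v`: it contains `v`, and each of its
elements has a directed path to `v` in the subgraph of `D` induced by `U`. -/
def IsOrnament {V : Type} (D : Digraph V) (v : V) (U : Set V) : Prop :=
  v ∈ U ∧ ∀ u ∈ U, Relation.ReflTransGen (fun a b => D.Adj a b ∧ a ∈ U ∧ b ∈ U) u v

/-- The ornamentations of `D`, ordered by `O ≤ O'` if and only if `O v ⊆ O' v` for every vertex `v`. -/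
abbrev Ornamentation {V : Type} (D : Digraph V) : Type :=
  {O : V → Set V // (∀ v, IsOrnament D v (O v)) ∧ ∀ u v, u ∈ O v → O u ⊆ O v}

/-- A convex polytope of `ℝ^d`: the convex hull of a finite set. -/
def IsPolytope {d : ℕ} (P : Set (EuclideanSpace ℝ (Fin d))) : Prop :=
  ∃ A : Set (EuclideanSpace ℝ (Fin d)), A.Finite ∧ P = convexHull ℝ A

/-- The segment from `u` to `v` is an edge of `P`: a face of `P` with exactly the two vertices
`u`, `v`. -/
def IsEdge {d : ℕ} (P : Set (EuclideanSpace ℝ (Fin d))) (u v : EuclideanSpace ℝ (Fin d)) : Prop :=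
  u ≠ v ∧ u ∈ P.extremePoints ℝ ∧ v ∈ P.extremePoints ℝ ∧ IsExposed ℝ P (segment ℝ u v)

/-- There is a directed path from `u` to `v` in the graph of `P`, every edge being directed towards
its end of larger value of `c`. -/
def Reaches {d : ℕ} (P : Set (EuclideanSpace ℝ (Fin d))) (c : EuclideanSpace ℝ (Fin d) →ₗ[ℝ] ℝ) :
    EuclideanSpace ℝ (Fin d) → EuclideanSpace ℝ (Fin d) → Prop :=
  Relation.ReflTransGen (fun u v => IsEdge P u v ∧ c u < c v)

/-- `P` is a polytope, `c` is a linear functional that is not constant on any edge of `P`, and the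
poset of ornamentations of `D` is isomorphic to the set of vertices of `P` ordered by the transitive
closure of the graph of `P` oriented by `c`. -/
def Realizes {V : Type} (D : Digraph V) {d : ℕ} (P : Set (EuclideanSpace ℝ (Fin d)))
    (c : EuclideanSpace ℝ (Fin d) →ₗ[ℝ] ℝ) : Prop :=
  IsPolytope P ∧ (∀ u v, IsEdge P u v → c u ≠ c v) ∧
    ∃ e : Ornamentation D ≃ P.extremePoints ℝ, ∀ O O' : Ornamentation D,
      O ≤ O' ↔ Reaches P c (e O) (e O')

/-- The complete directed graph on three vertices: both arcs between any two different vertices. -/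
def completeThree : Digraph (Fin 3) := ⟨fun a b => a ≠ b⟩

end Q139.Orn
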