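import Mathlib
import Pool.Agent.Q139.Orn.Defs
import Pool.Agent.Q139.Orn.Config

/-!
# From polytopes to finite vertex sets; the preorders on three points
-/

set_option autoImplicit false

namespace Q139.Orn

open Relation

section Poly

variable {d : ℕ} {P : Set (EuclideanSpace ℝ (Fin d))}

lemma IsPolytope.finite (hP : IsPolytope P) : (P.extremePoints ℝ).Finite := by
  obtain ⟨A, hA, rfl⟩ := hP
  exact hA.subset extremePoints_convexHull_subset

lemma IsPolytope.hull (hP : IsPolytope P) : convexHull ℝ (P.extremePoints ℝ) = P := by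
  have hfin := hP.finite
  obtain ⟨A, hA, hPA⟩ := hP
  have hc : IsCompact P := by
    rw [hPA]
    exact hA.isCompact_convexHull ℝ
  have hconv : Convex ℝ P := by
    rw [hPA]
    exact convex_convexHull ℝ A
  have h := closure_convexHull_extremePoints hc hconv
  rwa [(hfin.isClosed_convexHull ℝ).closure_eq] at h

lemma exposed_vertex (hP : IsPolytope P) [DecidableEq (EuclideanSpace ℝ (Fin d))]
    (W : Finset (EuclideanSpace ℝ (Fin d))) (hW : (W : Set _) = P.extremePoints ℝ) :
    ∀ w ∈ W, Face W {w} := by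
  intro w hw
  have hwP : w ∈ P.extremePoints ℝ := by rw [← hW]; exact hw
  set T : Set (EuclideanSpace ℝ (Fin d)) := P.extremePoints ℝ \ {w} with hT
  have hTfin : T.Finite := hP.finite.subset Set.sdiff_subset
  have hnot : w ∉ convexHull ℝ T := by
    intro hmem
    have h1 : convexHull ℝ (P.extremePoints ℝ) = convexHull ℝ T := by
      apply subset_antisymm
      · apply convexHull_min _ (convex_convexHull ℝ T)
        intro u hu
        by_cases huw : u = w
        · rw [huw]; exact hmem
        · exact subset_convexHull ℝ T ⟨hu, huw⟩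
      · exact convexHull_mono Set.sdiff_subset
    rw [hP.hull] at h1
    have h2 : w ∈ (convexHull ℝ T).extremePoints ℝ := by rw [← h1]; exact hwP
    exact (extremePoints_convexHull_subset h2).2 rfl
  obtain ⟨f, u, hf1, hf2⟩ := geometric_hahn_banach_closed_point (convex_convexHull ℝ T)
    (hTfin.isClosed_convexHull ℝ) hnot
  refine ⟨by simpa using hw, -(f : EuclideanSpace ℝ (Fin d) →ₗ[ℝ] ℝ), -(f w), ?_, ?_⟩
  · intro y hy
    rw [Finset.mem_singleton] at hy
    simp [hy]
  · intro y hy hyw
    rw [Finset.mem_singleton] at hyw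
    have hyT : y ∈ T := ⟨by rw [← hW]; exact hy, hyw⟩
    have := hf1 y (subset_convexHull ℝ T hyT)
    show -(f w) < -(f y)
    linarith

lemma edge_iff (hP : IsPolytope P) [DecidableEq (EuclideanSpace ℝ (Fin d))]
    (W : Finset (EuclideanSpace ℝ (Fin d))) (hW : (W : Set _) = P.extremePoints ℝ)
    (u v : EuclideanSpace ℝ (Fin d)) : IsEdge P u v ↔ u ≠ v ∧ Face W {u, v} := by
  have hPW : convexHull ℝ (W : Set (EuclideanSpace ℝ (Fin d))) = P := by rw [hW, hP.hull]
  have hmemW : ∀ w, w ∈ W ↔ w ∈ P.extremePoints ℝ := by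
    intro w
    rw [← hW]
    exact Iff.rfl
  constructor
  · rintro ⟨huv, hu, hv, hexp⟩
    refine ⟨huv, ?_⟩
    obtain ⟨l, hl⟩ := hexp ⟨u, left_mem_segment ℝ u v⟩
    have hul : ∀ y ∈ P, l y ≤ l u := by
      have h := left_mem_segment ℝ u v
      rw [hl] at h
      exact h.2
    have hvl : ∀ y ∈ P, l y ≤ l v := by
      have h := right_mem_segment ℝ u v
      rw [hl] at h
      exact h.2
    have huP : u ∈ P := hu.1
    have hvP : v ∈ P := hv.1
    have heq : l u = l v := le_antisymm (hvl u huP) (hul v hvP)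
    refine ⟨?_, -(l : EuclideanSpace ℝ (Fin d) →ₗ[ℝ] ℝ), -(l u), ?_, ?_⟩
    · intro w hw
      simp only [Finset.mem_insert, Finset.mem_singleton] at hw
      rcases hw with rfl | rfl
      · exact (hmemW _).2 hu
      · exact (hmemW _).2 hv
    · intro w hw
      simp only [Finset.mem_insert, Finset.mem_singleton] at hw
      show -(l w) = -(l u)
      rcases hw with rfl | rfl
      · rfl
      · rw [heq]
    · intro w hw hw'
      simp only [Finset.mem_insert, Finset.mem_singleton, not_or] at hw'
      have hwe := (hmemW w).1 hw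
      have hwP : w ∈ P := hwe.1
      show -(l u) < -(l w)
      have h1 : l w ≤ l u := hul w hwP
      have h2 : l w ≠ l u := by
        intro h
        have hws : w ∈ segment ℝ u v := by
          rw [hl]
          exact ⟨hwP, fun y hy => by rw [h]; exact hul y hy⟩
        rw [← insert_endpoints_openSegment] at hws
        rcases hws with h3 | h3 | h3
        · exact hw'.1 h3
        · exact hw'.2 h3
        · have := (mem_extremePoints.1 hwe).2 u huP v hvP h3
          exact hw'.1 this.1.symm
      have := lt_of_le_of_ne h1 h2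
      linarith
  · rintro ⟨huv, hF⟩
    have hu : u ∈ W := hF.subset (by simp)
    have hv : v ∈ W := hF.subset (by simp)
    obtain ⟨-, f, r, hf0, hf1⟩ := hF
    have hfu : f u = r := hf0 u (by simp)
    have hfv : f v = r := hf0 v (by simp)
    refine ⟨huv, (hmemW _).1 hu, (hmemW _).1 hv, fun _ => ?_⟩
    refine ⟨-(LinearMap.toContinuousLinearMap f), ?_⟩
    have hle : ∀ y ∈ P, r ≤ f y := by
      intro y hy
      rw [← hPW] at hy
      have hsub : (W : Set (EuclideanSpace ℝ (Fin d))) ⊆ {y | r ≤ f y} := by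
        intro w hw
        by_cases hm : w ∈ ({u, v} : Finset _)
        · exact (hf0 w hm).ge
        · exact (hf1 w hw hm).le
      exact convexHull_min hsub (convex_halfSpace_ge f.isLinear r) hy
    ext y
    simp only [Set.mem_ofPred_eq]
    constructor
    · rintro ⟨α, β, hα, hβ, hαβ, rfl⟩
      have hval : f (α • u + β • v) = r := by
        rw [map_add, map_smul, map_smul, hfu, hfv, smul_eq_mul, smul_eq_mul, ← add_mul, hαβ,
          one_mul]
      refine ⟨?_, ?_⟩
      · rw [← hPW]
        exact convex_convexHull ℝ _ (subset_convexHull ℝ _ hu) (subset_convexHull ℝ _ hv) hα hβ hαβ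
      · intro y hy
        show -(f y) ≤ -(f (α • u + β • v))
        rw [hval]
        linarith [hle y hy]
    · rintro ⟨hy, hmax⟩
      have hfy : f y = r := by
        have h1 := hmax u (by rw [← hPW]; exact subset_convexHull ℝ _ hu)
        have h2 : -(f u) ≤ -(f y) := h1
        have h3 := hle y hy
        linarith
      rw [← hPW, Finset.mem_convexHull'] at hy
      obtain ⟨w, hw0, hw1, hwy⟩ := hy
      have hsum : ∑ i ∈ W, w i * (f i - r) = 0 := by
        have h1 := congrArg f hwy
        rw [map_sum] at h1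
        simp only [map_smul, smul_eq_mul] at h1
        rw [hfy] at h1
        simp only [mul_sub, Finset.sum_sub_distrib]
        rw [← Finset.sum_mul, hw1, one_mul, h1, sub_self]
      have hnn : ∀ i ∈ W, 0 ≤ w i * (f i - r) := by
        intro i hi
        apply mul_nonneg (hw0 i hi)
        linarith [hle i (by rw [← hPW]; exact subset_convexHull ℝ _ hi)]
      have hz : ∀ i ∈ W, i ∉ ({u, v} : Finset _) → w i = 0 := by
        intro i hi hm
        have h1 := (Finset.sum_eq_zero_iff_of_nonneg hnn).1 hsum i hi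
        have h2 := hf1 i hi hm
        rcases mul_eq_zero.1 h1 with h | h
        · exact h
        · linarith
      have hsub : ({u, v} : Finset (EuclideanSpace ℝ (Fin d))) ⊆ W := by
        intro i hi
        simp only [Finset.mem_insert, Finset.mem_singleton] at hi
        rcases hi with rfl | rfl <;> assumption
      have e1 : ∑ i ∈ ({u, v} : Finset _), w i = 1 := by
        rw [← hw1]
        exact Finset.sum_subset hsub hz
      have e2 : ∑ i ∈ ({u, v} : Finset _), w i • i = y := by
        rw [← hwy]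
        exact Finset.sum_subset hsub fun i hi hm => by rw [hz i hi hm, zero_smul]
      rw [Finset.sum_pair huv] at e1 e2
      exact ⟨w u, w v, hw0 u hu, hw0 v hv, e1, e2⟩

end Poly

/-! ### Preorders on three points -/

/-- reflexive and transitive relations on three points -/
def IsPre (M : Fin 3 → Fin 3 → Bool) : Prop :=
  (∀ i, M i i = true) ∧ ∀ i j k, M i j = true → M j k = true → M i k = true

instance : DecidablePred IsPre := fun M => by unfold IsPre; infer_instance

/-- the preorders on three points -/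
abbrev Pre : Type := {M : Fin 3 → Fin 3 → Bool // IsPre M}

instance (M M' : Pre) : Decidable (M ≤ M') :=
  decidable_of_iff (∀ i j, M.1 i j ≤ M'.1 i j) Iff.rfl

/-- the ornamentation of a preorder -/
def toOrn (M : Pre) : Ornamentation completeThree :=
  ⟨fun v => {u | M.1 u v = true}, by
    refine ⟨fun v => ⟨M.2.1 v, fun u hu => ?_⟩, fun u v hu w hw => M.2.2 w u v hw hu⟩
    by_cases huv : u = v
    · rw [huv]
    · exact ReflTransGen.single ⟨huv, hu, M.2.1 v⟩⟩

lemma toOrn_le (M M' : Pre) : toOrn M ≤ toOrn M' ↔ M ≤ M' := by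
  constructor
  · intro h i j
    have h1 : ∀ u, M.1 u j = true → M'.1 u j = true := fun u hu => h j hu
    have h2 := h1 i
    revert h2
    cases M.1 i j <;> cases M'.1 i j <;> simp
  · intro h v u hu
    have h1 := h u v
    have hu' : M.1 u v = true := hu
    rw [hu'] at h1
    show M'.1 u v = true
    exact top_le_iff.1 h1

lemma toOrn_surj : Function.Surjective toOrn := by
  classical
  intro O
  refine ⟨⟨fun u v => decide (u ∈ O.1 v), ⟨fun i => ?_, fun i j k h1 h2 => ?_⟩⟩, ?_⟩
  · simpa using (O.2.1 i).1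
  · simp only [decide_eq_true_eq] at h1 h2 ⊢
    exact O.2.2 j k h2 h1
  · apply Subtype.ext
    funext v
    ext u
    simp [toOrn]

/-- the three cyclic pairs -/
def ca (i : Fin 3) : Pre :=
  ⟨fun u v => decide (u = v) || (decide (u = i) && decide (v = i + 1)), by revert i; decide⟩

/-- the three other pairs -/
def cb (i : Fin 3) : Pre :=
  ⟨fun u v => decide (u = v) || (decide (u = i + 1) && decide (v = i)), by revert i; decide⟩

/-- their joins -/
def cx (i j : Fin 3) : Pre :=
  ⟨fun u v => (ca i).1 u v || (cb j).1 u v, by revert i j; decide⟩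

/-- the discrete preorder -/
def cz : Pre := ⟨fun u v => decide (u = v), by decide⟩

/-- the indiscrete preorder -/
def ct : Pre := ⟨fun _ _ => true, by decide⟩

/-- `0 ~ 1 ≤ 2` -/
def cA : Pre := ⟨fun u v => decide (u ≠ 2) || decide (v = 2), by decide⟩

/-- `2 ≤ 0 ~ 1` -/
def cB : Pre := ⟨fun u v => decide (v ≠ 2) || decide (u = 2), by decide⟩

lemma f1 : ∀ o, cz ≤ o := by decide +kernel

lemma f2 : ∀ (i j : Fin 3) (o : Pre), o ≤ cx i j → o = cz ∨ o = ca i ∨ o = cb j ∨ o = cx i j := by
  have h : ∀ (i j : Fin 3) (o : Pre), o ≤ cx i j → o ∈ [cz, ca i, cb j, cx i j] := by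
    decide +kernel
  intro i j o ho
  simpa using h i j o ho

lemma f3 : ∀ i j, ca i ≤ cx i j := by decide +kernel

lemma f4 : ∀ i j, cb j ≤ cx i j := by decide +kernel

lemma f5 : ∀ i j, ¬ ca i ≤ cb j := by decide +kernel

lemma f6 : ∀ i j, ¬ cb j ≤ ca i := by decide +kernel

lemma f7 : ∀ i j, ca i = ca j → i = j := by decide +kernel

lemma f8 : ∀ i j, cb i = cb j → i = j := by decide +kernel

lemma f9 : ∀ i j k l, k ≠ i → cx k l ≠ cx i j := by decide +kernel

lemma f10 : ∀ i, cz ≠ ca i := by decide +kernel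

lemma f11 : ∀ i, cz ≠ cb i := by decide +kernel

lemma f12 : ∀ i j, cz ≠ cx i j := by decide +kernel

lemma f13 : ∀ i j k, cx i j ≠ ca k := by decide +kernel

lemma f14 : ∀ i j k, cx i j ≠ cb k := by decide +kernel

lemma f15 : ∀ o : Pre, cx 0 0 ≤ o → o = ct ∨ o = cA ∨ o = cB ∨ o = cx 0 0 := by
  have h : ∀ o : Pre, cx 0 0 ≤ o → o ∈ [ct, cA, cB, cx 0 0] := by
    decide +kernel
  intro o ho
  simpa using h o ho

lemma f16 : cx 0 0 ≤ cA := by decide +kernel

lemma f17 : cx 0 0 ≤ cB := by decide +kernel

lemma f18 : cA ≤ ct := by decide +kernel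

lemma f19 : cB ≤ ct := by decide +kernel

lemma f20 : ¬ cA ≤ cB := by decide +kernel

lemma f21 : ¬ cB ≤ cA := by decide +kernel

lemma f22 : cx 0 0 ≠ cA := by decide +kernel

lemma f23 : cx 0 0 ≠ cB := by decide +kernel

theorem main : ¬ ∃ (d : ℕ) (P : Set (EuclideanSpace ℝ (Fin d)))
    (c : EuclideanSpace ℝ (Fin d) →ₗ[ℝ] ℝ), Realizes completeThree P c := by
  classical
  rintro ⟨d, P, c, hP, hc, e, he⟩
  set W : Finset (EuclideanSpace ℝ (Fin d)) := hP.finite.toFinset with hWdef
  have hW : (W : Set _) = P.extremePoints ℝ := hP.finite.coe_toFinset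
  have hmemW : ∀ w, w ∈ W ↔ w ∈ P.extremePoints ℝ := fun w => hP.finite.mem_toFinset
  have hrel : (fun u v => IsEdge P u v ∧ c u < c v) = Arrow W c := by
    funext u v
    apply propext
    rw [edge_iff hP W hW, Arrow]
    tauto
  have hc' : ∀ u w, u ≠ w → Face W {u, w} → c u ≠ c w := fun u w h1 h2 =>
    hc u w ((edge_iff hP W hW u w).2 ⟨h1, h2⟩)
  refine no_config (exposed_vertex hP W hW) hc' (L := Pre) (fun M => (e (toOrn M) : _))
    ?_ ?_ ?_ cz ct cA cB ca cb cx f1 f2 f3 f4 f5 f6 (fun i j => f7 i j) (fun i j => f8 i j) f9 f10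
    f11 f12 f13 f14 f15 f16 f17 f18 f19 f20 f21 f22 f23
  · intro M M' h
    have h1 := e.injective (Subtype.ext h)
    exact le_antisymm ((toOrn_le _ _).1 h1.le) ((toOrn_le _ _).1 h1.ge)
  · intro w
    rw [hmemW]
    constructor
    · intro hw
      obtain ⟨O, hO⟩ := e.surjective ⟨w, hw⟩
      obtain ⟨M, rfl⟩ := toOrn_surj O
      exact ⟨M, by rw [hO]⟩
    · rintro ⟨M, rfl⟩
      exact (e (toOrn M)).2
  · intro M M'
    rw [← toOrn_le, he, Reaches, hrel]

end Q139.Orn
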